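import Pool.Agent.helper41.G5.Spec

/-! # d2:5GAP (MP_5823cb): the static gap, abstract finite form. -/

namespace DH5

open Finset

section GAPaux

theorem av_mono {Ω : Type} [Fintype Ω] (f g : Ω → ℝ) (h : ∀ o, f o ≤ g o) : av f ≤ av g := by
  unfold av
  apply mul_le_mul_of_nonneg_left (Finset.sum_le_sum (fun o _ => h o))
  positivity

theorem av_le_const {Ω : Type} [Fintype Ω] (f : Ω → ℝ) (A : ℝ) (hA : 0 ≤ A) (h : ∀ o, f o ≤ A) : av f ≤ A := by
  refine (av_mono f (fun _ => A) h).trans ?_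
  unfold av
  rw [Finset.sum_const, nsmul_eq_mul, Finset.card_univ, ← mul_assoc]
  rcases Nat.eq_zero_or_pos (Fintype.card Ω) with h0 | h0
  · simp [h0, hA]
  · have : (0 : ℝ) < Fintype.card Ω := by exact_mod_cast h0
    rw [inv_mul_cancel₀ (ne_of_gt this), one_mul]

theorem av_split {Ω : Type} [Fintype Ω] (f : Ω → ℝ) (s : Set Ω) (A B : ℝ) (hA : 0 ≤ A) (hB : 0 ≤ B) (h1 : ∀ o, o ∉ s → f o ≤ A) (h2 : ∀ o, o ∈ s → f o ≤ B) :
    av f ≤ A + (Fintype.card Ω : ℝ)⁻¹ * ((Set.ncard s : ℝ) * B) := by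
  classical
  have h3 : av f ≤ av (fun o => A + (if o ∈ s then B else 0)) := by
    apply av_mono
    intro o
    by_cases ho : o ∈ s
    · simp only [ho, if_true]; have := h2 o ho; linarith
    · simp only [ho, if_false]; have := h1 o ho; linarith
  refine h3.trans ?_
  have h4 : av (fun o => A + (if o ∈ s then B else 0)) = av (fun _ : Ω => A) + (Fintype.card Ω : ℝ)⁻¹ * ((Set.ncard s : ℝ) * B) := by
    unfold av
    rw [Finset.sum_add_distrib, mul_add]
    congr 2
    rw [← Finset.sum_filter, Finset.sum_const, nsmul_eq_mul]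
    congr 2
    rw [← Set.ncard_coe_finset]
    congr 1
    ext o; simp
  rw [h4]
  have := av_le_const (fun _ : Ω => A) A hA (fun _ => le_refl _)
  linarith

theorem av_markov {Ω : Type} [Fintype Ω] (f : Ω → ℝ) (hf : ∀ o, 0 ≤ f o) (c : ℝ) (hc : 0 ≤ c) (p : ℕ) :
    (Set.ncard {o | c < f o} : ℝ) * c ^ p ≤ Fintype.card Ω * av (fun o => f o ^ p) := by
  classical
  rcases isEmpty_or_nonempty Ω with hΩ | hΩ
  · have : {o | c < f o} = ∅ := Set.eq_empty_of_isEmpty _
    rw [this]; simp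
  have hpos : (0 : ℝ) < Fintype.card Ω := by exact_mod_cast Fintype.card_pos
  unfold av
  rw [← mul_assoc, mul_inv_cancel₀ (ne_of_gt hpos), one_mul]
  have h1 : (Set.ncard {o | c < f o} : ℝ) * c ^ p = ∑ o : Ω, (if c < f o then c ^ p else 0) := by
    rw [← Finset.sum_filter, Finset.sum_const, nsmul_eq_mul]
    congr 2
    rw [← Set.ncard_coe_finset]
    congr 1
    ext o; simp
  rw [h1]
  apply Finset.sum_le_sum
  intro o _
  split_ifs with h
  · exact pow_le_pow_left₀ hc h.le p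
  · exact pow_nonneg (hf o) p

theorem am_row {ι Z J : Type} [Fintype ι] [Fintype Z] [Fintype J] (touch : ι → Z → J → Prop) (h3 : ∀ i z, Set.ncard {j | touch i z j} ≤ 3) (ε : ι × Z → Bool) (z : Z) :
    ∑ j, |am touch ε z j| ≤ 3 * Fintype.card ι := by
  classical
  have h1 : ∀ j, |am touch ε z j| ≤ ∑ i : ι, (if touch i z j then (1 : ℝ) else 0) := by
    intro j
    unfold am
    refine (Finset.abs_sum_le_sum_abs _ _).trans ?_
    apply Finset.sum_le_sum
    intro i _
    rw [abs_mul]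
    have : |sg (ε (i, z))| = 1 := by unfold sg; split_ifs <;> simp
    rw [this, one_mul]
    split_ifs <;> simp
  calc ∑ j, |am touch ε z j| ≤ ∑ j, ∑ i : ι, (if touch i z j then (1 : ℝ) else 0) := Finset.sum_le_sum (fun j _ => h1 j)
    _ = ∑ i : ι, ∑ j, (if touch i z j then (1 : ℝ) else 0) := Finset.sum_comm
    _ ≤ ∑ _i : ι, (3 : ℝ) := by
      apply Finset.sum_le_sum
      intro i _
      rw [Finset.sum_boole]
      have h1 : #(Finset.univ.filter (fun j => touch i z j)) ≤ Set.ncard {j | touch i z j} := by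
        rw [← Set.ncard_coe_finset]
        exact Set.ncard_le_ncard (fun z hz => by simpa using (Finset.mem_filter.1 (Finset.mem_coe.1 hz)).2) (Set.toFinite _)
      exact_mod_cast h1.trans (h3 _ _)
    _ = 3 * Fintype.card ι := by simp [mul_comm]

theorem am_col {ι Z J : Type} [Fintype ι] [Fintype Z] [Fintype J] (touch : ι → Z → J → Prop) (h3 : ∀ i j, Set.ncard {z | touch i z j} ≤ 3) (ε : ι × Z → Bool) (j : J) :
    ∑ z, |am touch ε z j| ≤ 3 * Fintype.card ι := by
  classical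
  have h1 : ∀ z, |am touch ε z j| ≤ ∑ i : ι, (if touch i z j then (1 : ℝ) else 0) := by
    intro z
    unfold am
    refine (Finset.abs_sum_le_sum_abs _ _).trans ?_
    apply Finset.sum_le_sum
    intro i _
    rw [abs_mul]
    have : |sg (ε (i, z))| = 1 := by unfold sg; split_ifs <;> simp
    rw [this, one_mul]
    split_ifs <;> simp
  calc ∑ z, |am touch ε z j| ≤ ∑ z, ∑ i : ι, (if touch i z j then (1 : ℝ) else 0) := Finset.sum_le_sum (fun z _ => h1 z)
    _ = ∑ i : ι, ∑ z, (if touch i z j then (1 : ℝ) else 0) := Finset.sum_comm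
    _ ≤ ∑ _i : ι, (3 : ℝ) := by
      apply Finset.sum_le_sum
      intro i _
      rw [Finset.sum_boole]
      have h1 : #(Finset.univ.filter (fun z => touch i z j)) ≤ Set.ncard {z | touch i z j} := by
        rw [← Set.ncard_coe_finset]
        exact Set.ncard_le_ncard (fun z hz => by simpa using (Finset.mem_filter.1 (Finset.mem_coe.1 hz)).2) (Set.toFinite _)
      exact_mod_cast h1.trans (h3 _ _)
    _ = 3 * Fintype.card ι := by simp [mul_comm]

/-- numeric: the bad set -/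
theorem gap_num (t : ℕ) (K β q k N : ℝ) (hK : 1 ≤ K) (hβ : 0 < β) (hβ1 : β ≤ 1) (hq : 1 ≤ q) (h : 2160 * K * t * Real.log (2 / β) ≤ β ^ 2 * q * k) (hN : N ≤ 2 ^ (2 * t)) (ht : 1 ≤ t) :
    4 * N * Real.exp (-(β ^ 2 * q * k / 216)) * (3 * q) ^ (2 * t) ≤ (β * q) ^ (2 * t) := by
  have hL : 0 < Real.log (2 / β) := Real.log_pos (by rw [lt_div_iff₀ hβ]; linarith)
  have htr : (1 : ℝ) ≤ t := by exact_mod_cast ht
  have h1 : Real.exp (-(β ^ 2 * q * k / 216)) ≤ (β / 2) ^ (10 * t) := by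
    have h2 : (β / 2) ^ (10 * t) = Real.exp (-(10 * t * Real.log (2 / β))) := by
      rw [Real.exp_neg, show (10 : ℝ) * t * Real.log (2 / β) = ((10 * t : ℕ) : ℝ) * Real.log (2 / β) by push_cast; ring, Real.exp_nat_mul, Real.exp_log (by positivity), ← inv_pow, inv_div]
    rw [h2]
    apply Real.exp_le_exp.2
    apply neg_le_neg
    have h3 : t * Real.log (2 / β) ≤ K * (t * Real.log (2 / β)) := le_mul_of_one_le_left (by positivity) hK
    nlinarith
  have h2 : 4 * N ≤ 4 * (2 : ℝ) ^ (2 * t) := by linarith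
  have h3 : 4 * N * Real.exp (-(β ^ 2 * q * k / 216)) ≤ 4 * (2 : ℝ) ^ (2 * t) * (β / 2) ^ (10 * t) := by
    calc 4 * N * Real.exp (-(β ^ 2 * q * k / 216)) ≤ 4 * (2 : ℝ) ^ (2 * t) * Real.exp (-(β ^ 2 * q * k / 216)) := by
          apply mul_le_mul_of_nonneg_right h2 (Real.exp_pos _).le
      _ ≤ 4 * (2 : ℝ) ^ (2 * t) * (β / 2) ^ (10 * t) := mul_le_mul_of_nonneg_left h1 (by positivity)
  calc 4 * N * Real.exp (-(β ^ 2 * q * k / 216)) * (3 * q) ^ (2 * t) ≤ 4 * (2 : ℝ) ^ (2 * t) * (β / 2) ^ (10 * t) * (3 * q) ^ (2 * t) := mul_le_mul_of_nonneg_right h3 (by positivity)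
    _ ≤ (4 : ℝ) ^ t * (2 : ℝ) ^ (2 * t) * (β / 2) ^ (10 * t) * (3 * q) ^ (2 * t) := by
      apply mul_le_mul_of_nonneg_right _ (by positivity)
      apply mul_le_mul_of_nonneg_right _ (by positivity)
      apply mul_le_mul_of_nonneg_right _ (by positivity)
      calc (4 : ℝ) = 4 ^ 1 := by norm_num
        _ ≤ 4 ^ t := pow_le_pow_right₀ (by norm_num) ht
    _ = (4 * 2 ^ 2 * (β / 2) ^ 10 * (3 * q) ^ 2) ^ t := by
      rw [pow_mul (2 : ℝ) 2 t, pow_mul (β / 2) 10 t, pow_mul (3 * q) 2 t, ← mul_pow, ← mul_pow, ← mul_pow]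
    _ ≤ ((β * q) ^ 2) ^ t := by
      apply pow_le_pow_left₀ (by positivity)
      have h5 : β ^ 8 ≤ 1 := pow_le_one₀ hβ.le hβ1
      have h6 : 4 * 2 ^ 2 * (β / 2) ^ 10 * (3 * q) ^ 2 = (β * q) ^ 2 * (β ^ 8 * (144 / 1024)) := by ring
      rw [h6]
      have h7 : β ^ 8 * (144 / 1024) ≤ 1 := by nlinarith
      exact mul_le_of_le_one_right (by positivity) h7
    _ = (β * q) ^ (2 * t) := by rw [← pow_mul]

theorem gap_num2 (B : ℝ) (n : ℕ) : (2 : ℝ) ^ n * (11 / 10) ^ n * B ^ n * (2 ^ n * 2 ^ n) = (2 * (11 / 10) * (2 * 2) * B) ^ n := by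
  rw [mul_pow, mul_pow, mul_pow, mul_pow]; ring

end GAPaux

theorem GAP (hTD : TD_stmt) (hBL : BL_stmt) (hTR : TR_stmt) (hSH : SH_stmt) (hSY : SY_stmt) (hPR : PR_stmt) : GAP_stmt := by
  classical
  obtain ⟨K, hK1, hK⟩ := hBL
  refine ⟨2160 * K, by linarith, ?_⟩
  intro ι Z J Ω _ _ _ _ _ _ V H _ _ _ _ _ _ P X touch D t β k hD ht hP hX hort htouch h3 h3' hβ hβ1 hk hsp hlog hKt hDN
  have hq1 : (1 : ℝ) ≤ Fintype.card ι := by exact_mod_cast (Fintype.card_pos : 0 < Fintype.card ι)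
  set q : ℝ := (Fintype.card ι : ℝ) with hqd
  have hL : 0 < Real.log (2 / β) := Real.log_pos (by rw [lt_div_iff₀ hβ]; linarith)
  have hDr : (1 : ℝ) ≤ D := by exact_mod_cast hD
  have hNN : (Fintype.card Z + Fintype.card J : ℝ) ≤ 2 ^ (2 * t) := by
    refine le_trans ?_ hDN
    exact le_mul_of_one_le_left (by positivity) hDr
  have hDJ : (D : ℝ) * Fintype.card J ≤ 2 ^ (2 * t) := by
    refine le_trans ?_ hDN
    apply mul_le_mul_of_nonneg_left _ (by positivity)
    have : (0 : ℝ) ≤ Fintype.card Z := Nat.cast_nonneg _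
    linarith
  -- the trace average
  set B : ℝ := K * (β * q) * (1 + Real.log (3 / β)) with hBd
  have hl3 : 0 < Real.log (3 / β) := Real.log_pos (by rw [lt_div_iff₀ hβ]; linarith)
  have hB0 : 0 ≤ B := by positivity
  have hKB : β * q ≤ B := by
    rw [hBd]
    have : 1 * (β * q) * 1 ≤ K * (β * q) * (1 + Real.log (3 / β)) := by
      apply mul_le_mul _ (by linarith) (by norm_num) (by positivity)
      exact mul_le_mul_of_nonneg_right hK1 (by positivity)
    linarith
  have htr : av (fun ε : ι × Z → Bool => Matrix.trace (((am touch ε).transpose * am touch ε) ^ t)) ≤ 2 * (Fintype.card J * B ^ (2 * t)) := by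
    have h1 := av_split (fun ε : ι × Z → Bool => Matrix.trace (((am touch ε).transpose * am touch ε) ^ t))
      {ε : ι × Z → Bool | ∃ (S : Finset Z) (T : Finset J), β * Fintype.card ι * √((#S : ℝ) * #T) < |∑ z ∈ S, ∑ j ∈ T, am touch ε z j|}
      (Fintype.card J * B ^ (2 * t)) (Fintype.card J * (3 * q) ^ (2 * t)) (by positivity) (by positivity) (by
        intro ε hε
        apply hTR Z J (am touch ε) B t hB0
        have h2 := hK Z J (am touch ε) (3 * q) (β * q) (by positivity) (by nlinarith) (am_row touch h3 ε) (am_col touch h3' ε) (by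
          intro S T
          by_contra hno
          push Not at hno
          exact hε ⟨S, T, hno⟩)
        have h4 : 3 * q / (β * q) = 3 / β := by
          field_simp
        rw [h4] at h2
        rw [hBd]
        exact h2) (by
        intro ε _
        apply hTR Z J (am touch ε) (3 * q) t (by positivity)
        exact hSH Z J (am touch ε) (3 * q) (by positivity) (am_row touch h3 ε) (am_col touch h3' ε))
    refine h1.trans ?_
    have h2 := hPR ι Z J touch β k hβ hk h3 h3' hsp (by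
      refine le_trans ?_ hlog
      have : 0 ≤ Real.log (Fintype.card ι + 1) := Real.log_nonneg (by linarith)
      nlinarith)
    have hc : (Fintype.card (ι × Z → Bool) : ℝ) = 2 ^ Fintype.card (ι × Z) := by
      rw [Fintype.card_fun]; simp
    rw [hc]
    have hpos : (0 : ℝ) < 2 ^ Fintype.card (ι × Z) := by positivity
    have h5 : (2 ^ Fintype.card (ι × Z) : ℝ)⁻¹ * ((Set.ncard {ε : ι × Z → Bool | ∃ (S : Finset Z) (T : Finset J), β * Fintype.card ι * √((#S : ℝ) * #T) < |∑ z ∈ S, ∑ j ∈ T, am touch ε z j|} : ℝ) * (Fintype.card J * (3 * q) ^ (2 * t))) ≤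
        Fintype.card J * (4 * (Fintype.card Z + Fintype.card J) * Real.exp (-(β ^ 2 * q * k / 216)) * (3 * q) ^ (2 * t)) := by
      rw [inv_mul_le_iff₀ hpos]
      calc _ ≤ (4 * (Fintype.card Z + Fintype.card J) * Real.exp (-(β ^ 2 * Fintype.card ι * k / 216)) * 2 ^ Fintype.card (ι × Z)) * (Fintype.card J * (3 * q) ^ (2 * t)) := mul_le_mul_of_nonneg_right h2 (by positivity)
        _ = _ := by ring
    have h6 := gap_num t K β q k (Fintype.card Z + Fintype.card J) hK1 hβ hβ1 hq1 (by linarith [hKt]) hNN ht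
    have h7 : (β * q) ^ (2 * t) ≤ B ^ (2 * t) := pow_le_pow_left₀ (by positivity) hKB _
    have h8 : (Fintype.card J : ℝ) * (4 * (Fintype.card Z + Fintype.card J) * Real.exp (-(β ^ 2 * q * k / 216)) * (3 * q) ^ (2 * t)) ≤ Fintype.card J * B ^ (2 * t) := mul_le_mul_of_nonneg_left (h6.trans h7) (Nat.cast_nonneg _)
    linarith
  -- moment bound
  have hmom : av (fun ω : ι × Z → Ω => ‖∑ e : ι × Z, (X e.1 e.2 (ω e) - avE (X e.1 e.2))‖ ^ (2 * t)) ≤ 2 ^ (2 * t) * (D * (11 / 10) ^ (2 * t) * (2 * (Fintype.card J * B ^ (2 * t)))) := by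
    have h1 := hSY (ι × Z) Ω (V →L[ℝ] H) (fun e => X e.1 e.2) (2 * t) (by omega)
    refine h1.trans ?_
    apply mul_le_mul_of_nonneg_left _ (by positivity)
    apply av_le_const _ _ (by positivity)
    intro ω
    have h2 := hTD ι Z J V H P (fun i z => X i z (ω (i, z))) touch D t (11 / 10) ht (by norm_num) hP (fun i z => hX i z _) (fun i i' z z' hz v w => hort i i' z z' _ _ hz v w) (fun i z j hn => htouch i z _ j hn)
    refine h2.trans ?_
    exact mul_le_mul_of_nonneg_left htr (by positivity)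
  -- Markov
  have hmk := av_markov (fun ω : ι × Z → Ω => ‖∑ e : ι × Z, (X e.1 e.2 (ω e) - avE (X e.1 e.2))‖) (fun _ => norm_nonneg _) (q * (2160 * K * β * Real.log (2 / β))) (by positivity) (2 * t)
  have hset : {ω : ι × Z → Ω | 2160 * K * β * Real.log (2 / β) < ‖((Fintype.card ι : ℝ))⁻¹ • ∑ e : ι × Z, (X e.1 e.2 (ω e) - avE (X e.1 e.2))‖} = {ω : ι × Z → Ω | q * (2160 * K * β * Real.log (2 / β)) < ‖∑ e : ι × Z, (X e.1 e.2 (ω e) - avE (X e.1 e.2))‖} := by
    ext ω
    simp only [Set.mem_setOf_eq]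
    rw [norm_smul, norm_inv, Real.norm_of_nonneg (by positivity : (0 : ℝ) ≤ (Fintype.card ι : ℝ)), ← hqd, lt_inv_mul_iff₀ (by positivity)]
  rw [hset, Nat.card_eq_fintype_card]
  set c : ℝ := q * (2160 * K * β * Real.log (2 / β)) with hc
  have hc0 : 0 < c := by positivity
  have h9 : (4 * (2 * (11 / 10) * (2 * 2) * B)) ≤ c := by
    have hl3' : Real.log (3 / β) ≤ 1 / 2 + Real.log (2 / β) := by
      rw [show (3 : ℝ) / β = (3 / 2) * (2 / β) by ring, Real.log_mul (by norm_num) (by positivity)]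
      have : Real.log (3 / 2) ≤ 3 / 2 - 1 := Real.log_le_sub_one_of_pos (by norm_num)
      linarith
    have hl2 : 1 / 2 ≤ Real.log (2 / β) := by
      have h1 : Real.log 2 ≤ Real.log (2 / β) := Real.log_le_log (by norm_num) (by rw [le_div_iff₀ hβ]; linarith)
      have h2 := Real.log_two_gt_d9
      linarith
    have h10 : 1 + Real.log (3 / β) ≤ 4 * Real.log (2 / β) := by linarith
    have h11 : B ≤ K * (β * q) * (4 * Real.log (2 / β)) := mul_le_mul_of_nonneg_left h10 (by positivity)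
    rw [hc]
    have h12 : 0 ≤ K * (β * q) * Real.log (2 / β) := by positivity
    nlinarith
  have h10 : 2 ^ (2 * t) * (D * (11 / 10) ^ (2 * t) * (2 * (Fintype.card J * B ^ (2 * t)))) ≤ (2 * (11 / 10) * (2 * 2) * B) ^ (2 * t) := by
    have h2t : (2 : ℝ) ≤ 2 ^ (2 * t) := by
      calc (2 : ℝ) = 2 ^ 1 := by norm_num
        _ ≤ 2 ^ (2 * t) := pow_le_pow_right₀ (by norm_num) (by omega)
    calc 2 ^ (2 * t) * (D * (11 / 10) ^ (2 * t) * (2 * (Fintype.card J * B ^ (2 * t)))) = 2 ^ (2 * t) * (11 / 10) ^ (2 * t) * B ^ (2 * t) * (2 * (D * Fintype.card J)) := by ring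
      _ ≤ 2 ^ (2 * t) * (11 / 10) ^ (2 * t) * B ^ (2 * t) * (2 ^ (2 * t) * 2 ^ (2 * t)) := by
        apply mul_le_mul_of_nonneg_left _ (by positivity)
        exact mul_le_mul h2t hDJ (by positivity) (by positivity)
      _ = (2 * (11 / 10) * (2 * 2) * B) ^ (2 * t) := by
        exact gap_num2 B (2 * t)
  have h11 : (Set.ncard {ω : ι × Z → Ω | c < ‖∑ e : ι × Z, (X e.1 e.2 (ω e) - avE (X e.1 e.2))‖} : ℝ) * c ^ (2 * t) ≤ ((1 / 2) ^ (4 * t) * Fintype.card (ι × Z → Ω)) * c ^ (2 * t) := by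
    refine hmk.trans ?_
    have h12 : (2 * (11 / 10) * (2 * 2) * B) ^ (2 * t) ≤ (1 / 2) ^ (4 * t) * c ^ (2 * t) := by
      calc (2 * (11 / 10) * (2 * 2) * B) ^ (2 * t) ≤ (c / 4) ^ (2 * t) := pow_le_pow_left₀ (by positivity) (by linarith) _
        _ = (1 / 2) ^ (4 * t) * c ^ (2 * t) := by
          rw [div_pow, show 4 * t = 2 * (2 * t) by ring, pow_mul (1 / 2 : ℝ) 2 (2 * t)]
          rw [div_eq_mul_inv, mul_comm, ← inv_pow]; norm_num
    calc (Fintype.card (ι × Z → Ω) : ℝ) * av (fun ω : ι × Z → Ω => ‖∑ e : ι × Z, (X e.1 e.2 (ω e) - avE (X e.1 e.2))‖ ^ (2 * t)) ≤ (Fintype.card (ι × Z → Ω) : ℝ) * ((1 / 2) ^ (4 * t) * c ^ (2 * t)) := mul_le_mul_of_nonneg_left (hmom.trans (h10.trans h12)) (Nat.cast_nonneg _)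
      _ = _ := by ring
  exact le_of_mul_le_mul_right h11 (by positivity)

end DH5
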