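import Pool.Agent.helper41.G5.Spec

/-! # d2:5PR (MP_5823cb): probability of a bad pair. -/

namespace DH5

open Finset

section PRaux

variable {ι Z J : Type} [Fintype ι] [Fintype Z] [Fintype J]

open Classical in
/-- number of touchings of `(i,z)` with `T`, for `z ∈ S` -/
noncomputable def prw (touch : ι → Z → J → Prop) (S : Finset Z) (T : Finset J) (e : ι × Z) : ℝ :=
  if e.2 ∈ S then ∑ j ∈ T, (if touch e.1 e.2 j then 1 else 0) else 0

theorem prw_nonneg (touch : ι → Z → J → Prop) (S : Finset Z) (T : Finset J) (e : ι × Z) : 0 ≤ prw touch S T e := by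
  classical
  unfold prw
  split_ifs
  · exact Finset.sum_nonneg (fun j _ => by split_ifs <;> norm_num)
  · exact le_refl _

theorem prw_sum (touch : ι → Z → J → Prop) (S : Finset Z) (T : Finset J) (ε : ι × Z → Bool) :
    ∑ z ∈ S, ∑ j ∈ T, am touch ε z j = ∑ e : ι × Z, sg (ε e) * prw touch S T e := by
  classical
  rw [Fintype.sum_prod_type_right]
  have h1 : ∀ z : Z, ∑ i : ι, sg (ε (i, z)) * prw touch S T (i, z) = if z ∈ S then ∑ j ∈ T, am touch ε z j else 0 := by
    intro z
    by_cases hz : z ∈ S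
    · simp only [prw, hz, if_true, am]
      rw [Finset.sum_comm]
      apply Finset.sum_congr rfl
      intro i _
      rw [Finset.mul_sum]
    · simp [prw, hz]
  simp only [h1]
  rw [Finset.sum_ite_mem]
  simp

theorem prw_le (touch : ι → Z → J → Prop) (h3 : ∀ i z, Set.ncard {j | touch i z j} ≤ 3) (S : Finset Z) (T : Finset J) (e : ι × Z) : prw touch S T e ≤ 3 := by
  classical
  unfold prw
  split_ifs
  · rw [Finset.sum_boole]
    have h1 : #(T.filter (fun j => touch e.1 e.2 j)) ≤ Set.ncard {j | touch e.1 e.2 j} := by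
      rw [← Set.ncard_coe_finset]
      exact Set.ncard_le_ncard (fun j hj => by simpa using (Finset.mem_filter.1 (Finset.mem_coe.1 hj)).2) (Set.toFinite _)
    exact_mod_cast h1.trans (h3 _ _)
  · norm_num

theorem prw_sumS (touch : ι → Z → J → Prop) (h3 : ∀ i z, Set.ncard {j | touch i z j} ≤ 3) (S : Finset Z) (T : Finset J) :
    ∑ e : ι × Z, prw touch S T e ≤ 3 * Fintype.card ι * #S := by
  classical
  rw [Fintype.sum_prod_type]
  have h1 : ∀ i : ι, ∑ z : Z, prw touch S T (i, z) ≤ 3 * #S := by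
    intro i
    have h2 : ∀ z : Z, prw touch S T (i, z) ≤ if z ∈ S then 3 else 0 := by
      intro z
      by_cases hz : z ∈ S
      · rw [if_pos hz]; exact prw_le touch h3 S T (i, z)
      · simp [prw, hz]
    calc ∑ z : Z, prw touch S T (i, z) ≤ ∑ z : Z, (if z ∈ S then (3 : ℝ) else 0) := Finset.sum_le_sum (fun z _ => h2 z)
      _ = 3 * #S := by rw [Finset.sum_ite_mem]; simp [mul_comm]
  calc ∑ i : ι, ∑ z : Z, prw touch S T (i, z) ≤ ∑ _i : ι, (3 * #S : ℝ) := Finset.sum_le_sum (fun i _ => h1 i)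
    _ = 3 * Fintype.card ι * #S := by simp; ring

theorem prw_sumT (touch : ι → Z → J → Prop) (h3 : ∀ i j, Set.ncard {z | touch i z j} ≤ 3) (S : Finset Z) (T : Finset J) :
    ∑ e : ι × Z, prw touch S T e ≤ 3 * Fintype.card ι * #T := by
  classical
  rw [Fintype.sum_prod_type]
  have h1 : ∀ i : ι, ∑ z : Z, prw touch S T (i, z) ≤ 3 * #T := by
    intro i
    have h2 : ∀ z : Z, prw touch S T (i, z) ≤ ∑ j ∈ T, (if touch i z j then (1 : ℝ) else 0) := by
      intro z
      by_cases hz : z ∈ S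
      · simp [prw, hz]
      · simp only [prw, hz, if_false]
        exact Finset.sum_nonneg (fun j _ => by split_ifs <;> norm_num)
    calc ∑ z : Z, prw touch S T (i, z) ≤ ∑ z : Z, ∑ j ∈ T, (if touch i z j then (1 : ℝ) else 0) := Finset.sum_le_sum (fun z _ => h2 z)
      _ = ∑ j ∈ T, ∑ z : Z, (if touch i z j then (1 : ℝ) else 0) := Finset.sum_comm
      _ ≤ ∑ _j ∈ T, (3 : ℝ) := by
        apply Finset.sum_le_sum
        intro j _
        rw [Finset.sum_boole]
        have h1 : #(Finset.univ.filter (fun z => touch i z j)) ≤ Set.ncard {z | touch i z j} := by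
          rw [← Set.ncard_coe_finset]
          exact Set.ncard_le_ncard (fun z hz => by simpa using (Finset.mem_filter.1 (Finset.mem_coe.1 hz)).2) (Set.toFinite _)
        exact_mod_cast h1.trans (h3 _ _)
      _ = 3 * #T := by simp [mul_comm]
  calc ∑ i : ι, ∑ z : Z, prw touch S T (i, z) ≤ ∑ _i : ι, (3 * #T : ℝ) := Finset.sum_le_sum (fun i _ => h1 i)
    _ = 3 * Fintype.card ι * #T := by simp; ring

theorem prw_sq (touch : ι → Z → J → Prop) (h3 : ∀ i z, Set.ncard {j | touch i z j} ≤ 3) (h3' : ∀ i j, Set.ncard {z | touch i z j} ≤ 3) (S : Finset Z) (T : Finset J) :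
    ∑ e : ι × Z, prw touch S T e ^ 2 ≤ 9 * Fintype.card ι * min (#S : ℝ) #T := by
  have h1 : ∑ e : ι × Z, prw touch S T e ^ 2 ≤ 3 * ∑ e : ι × Z, prw touch S T e := by
    rw [Finset.mul_sum]
    apply Finset.sum_le_sum
    intro e _
    have := prw_le touch h3 S T e
    have := prw_nonneg touch S T e
    nlinarith
  have h2 := prw_sumS touch h3 S T
  have h3 := prw_sumT touch h3' S T
  have hq : (0 : ℝ) ≤ Fintype.card ι := Nat.cast_nonneg _
  rcases min_cases (#S : ℝ) (#T : ℝ) with h | h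
  · rw [h.1]; nlinarith
  · rw [h.1]; nlinarith

theorem prw_count (touch : ι → Z → J → Prop) (S : Finset Z) (T : Finset J) :
    ∑ e : ι × Z, prw touch S T e = (Set.ncard {e : ι × Z × J | e.2.1 ∈ S ∧ e.2.2 ∈ T ∧ touch e.1 e.2.1 e.2.2} : ℝ) := by
  classical
  have h0 : {e : ι × Z × J | e.2.1 ∈ S ∧ e.2.2 ∈ T ∧ touch e.1 e.2.1 e.2.2} = ((Finset.univ.filter (fun e : ι × Z × J => e.2.1 ∈ S ∧ e.2.2 ∈ T ∧ touch e.1 e.2.1 e.2.2) : Finset (ι × Z × J)) : Set (ι × Z × J)) := by
    ext e; simp
  rw [h0, Set.ncard_coe_finset, ← Finset.sum_boole, Fintype.sum_prod_type, Fintype.sum_prod_type]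
  apply Finset.sum_congr rfl
  intro i _
  rw [Fintype.sum_prod_type]
  apply Finset.sum_congr rfl
  intro z _
  by_cases hz : z ∈ S
  · simp only [prw, hz, if_true, true_and]
    simp only [ite_and]
    rw [Finset.sum_ite_mem]
    simp
  · simp [prw, hz]

theorem pr_bad (hHF : HF_stmt) (touch : ι → Z → J → Prop) (h3 : ∀ i z, Set.ncard {j | touch i z j} ≤ 3) (h3' : ∀ i j, Set.ncard {z | touch i z j} ≤ 3)
    (β : ℝ) (hβ : 0 < β) (hq : (1 : ℝ) ≤ Fintype.card ι) (S : Finset Z) (T : Finset J) :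
    (Set.ncard {ε : ι × Z → Bool | β * Fintype.card ι * √((#S : ℝ) * #T) < |∑ z ∈ S, ∑ j ∈ T, am touch ε z j|} : ℝ) ≤
      2 * Real.exp (-(β ^ 2 * Fintype.card ι * (#S + #T) / 36)) * 2 ^ Fintype.card (ι × Z) := by
  classical
  rcases S.eq_empty_or_nonempty with hS | hS
  · subst hS
    simp only [Finset.card_empty, Nat.cast_zero, zero_mul, Real.sqrt_zero, mul_zero, Finset.sum_empty, abs_zero, lt_irrefl, Set.setOf_false, Set.ncard_empty]
    positivity
  rcases T.eq_empty_or_nonempty with hT | hT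
  · subst hT
    simp only [Finset.card_empty, Nat.cast_zero, mul_zero, Real.sqrt_zero, Finset.sum_empty, Finset.sum_const_zero, abs_zero, lt_irrefl, Set.setOf_false, Set.ncard_empty]
    positivity
  have hs : (1 : ℝ) ≤ #S := by exact_mod_cast hS.card_pos
  have ht : (1 : ℝ) ≤ #T := by exact_mod_cast hT.card_pos
  set q : ℝ := (Fintype.card ι : ℝ) with hqd
  have hm : 1 ≤ min (#S : ℝ) #T := le_min hs ht
  have h1 := hHF (ι × Z) (prw touch S T) (β * q * √((#S : ℝ) * #T)) (9 * q * min (#S : ℝ) #T) (by positivity) (by positivity) (prw_sq touch h3 h3' S T)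
  have h2 : ∀ ε : ι × Z → Bool, ∑ z ∈ S, ∑ j ∈ T, am touch ε z j = ∑ e : ι × Z, sg (ε e) * prw touch S T e := prw_sum touch S T
  simp only [h2]
  refine h1.trans ?_
  apply mul_le_mul_of_nonneg_right _ (by positivity)
  apply mul_le_mul_of_nonneg_left _ (by norm_num)
  apply Real.exp_le_exp.2
  apply neg_le_neg
  have h4 : (β * q * √((#S : ℝ) * #T)) ^ 2 = β ^ 2 * q ^ 2 * ((#S : ℝ) * #T) := by
    rw [mul_pow, mul_pow, Real.sq_sqrt (by positivity)]
  rw [h4]
  have h5 : (#S : ℝ) * #T = min (#S : ℝ) #T * max (#S : ℝ) #T := (min_mul_max _ _).symm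
  have h6 : (#S : ℝ) + #T ≤ 2 * max (#S : ℝ) #T := by
    have := le_max_left (#S : ℝ) #T
    have := le_max_right (#S : ℝ) #T
    linarith
  rw [h5, le_div_iff₀ (by positivity)]
  have h7 : 0 ≤ β ^ 2 * q ^ 2 * min (#S : ℝ) #T := by positivity
  nlinarith

theorem pr_deg (touch : ι → Z → J → Prop) (h3 : ∀ i z, Set.ncard {j | touch i z j} ≤ 3) (h3' : ∀ i j, Set.ncard {z | touch i z j} ≤ 3) (x : Z ⊕ J) :
    Set.ncard {y | (bip (fun z j => ∃ i, touch i z j)).Adj x y} ≤ 3 * Fintype.card ι := by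
  classical
  rcases x with z | j
  · have h1 : {y | (bip (fun z j => ∃ i, touch i z j)).Adj (Sum.inl z) y} ⊆ ((Finset.univ.biUnion (fun i : ι => (Finset.univ.filter (fun j => touch i z j)).image Sum.inr) : Finset (Z ⊕ J)) : Set (Z ⊕ J)) := by
      intro y hy
      simp only [bip, SimpleGraph.fromRel_adj, Set.mem_setOf_eq] at hy
      rcases hy with ⟨-, ⟨z', j', h1, h2, i, h3⟩ | ⟨z', j', h1, h2, i, h3⟩⟩
      · have hz : z = z' := by injection h1
        subst hz
        subst h2
        simp only [Finset.coe_biUnion, Set.mem_iUnion, Finset.coe_image]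
        exact ⟨i, by simp, j', by simpa using h3, rfl⟩
      · exact absurd h2 (by simp)
    refine (Set.ncard_le_ncard h1 (Set.toFinite _)).trans ?_
    rw [Set.ncard_coe_finset]
    refine Finset.card_biUnion_le.trans ?_
    calc ∑ i : ι, #((Finset.univ.filter (fun j => touch i z j)).image (Sum.inr : J → Z ⊕ J)) ≤ ∑ _i : ι, 3 := by
          apply Finset.sum_le_sum
          intro i _
          refine Finset.card_image_le.trans ?_
          refine le_trans ?_ (h3 i z)
          rw [← Set.ncard_coe_finset]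
          exact Set.ncard_le_ncard (fun j hj => by simpa using (Finset.mem_filter.1 (Finset.mem_coe.1 hj)).2) (Set.toFinite _)
      _ = 3 * Fintype.card ι := by simp [mul_comm]
  · have h1 : {y | (bip (fun z j => ∃ i, touch i z j)).Adj (Sum.inr j) y} ⊆ ((Finset.univ.biUnion (fun i : ι => (Finset.univ.filter (fun z => touch i z j)).image Sum.inl) : Finset (Z ⊕ J)) : Set (Z ⊕ J)) := by
      intro y hy
      simp only [bip, SimpleGraph.fromRel_adj, Set.mem_setOf_eq] at hy
      rcases hy with ⟨-, ⟨z', j', h1, h2, i, h3⟩ | ⟨z', j', h1, h2, i, h3⟩⟩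
      · exact absurd h1 (by simp)
      · have hz : j = j' := by injection h2
        subst hz
        subst h1
        simp only [Finset.coe_biUnion, Set.mem_iUnion, Finset.coe_image]
        exact ⟨i, by simp, z', by simpa using h3, rfl⟩
    refine (Set.ncard_le_ncard h1 (Set.toFinite _)).trans ?_
    rw [Set.ncard_coe_finset]
    refine Finset.card_biUnion_le.trans ?_
    calc ∑ i : ι, #((Finset.univ.filter (fun z => touch i z j)).image (Sum.inl : Z → Z ⊕ J)) ≤ ∑ _i : ι, 3 := by
          apply Finset.sum_le_sum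
          intro i _
          refine Finset.card_image_le.trans ?_
          refine le_trans ?_ (h3' i j)
          rw [← Set.ncard_coe_finset]
          exact Set.ncard_le_ncard (fun z hz => by simpa using (Finset.mem_filter.1 (Finset.mem_coe.1 hz)).2) (Set.toFinite _)
      _ = 3 * Fintype.card ι := by simp [mul_comm]

/-- numeric estimate for one size -/
theorem pr_num (q b : ℝ) (hq : 1 ≤ q) (hb : 864 * Real.log (q + 1) ≤ b) (m : ℕ) (k : ℝ) (hk : k ≤ m) :
    (3 * q) ^ (2 * m) * Real.exp (-(b * m / 36)) ≤ Real.exp (-(b * k / 216)) * (1 / 2) ^ m := by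
  have hl2 : 0 < Real.log 2 := Real.log_pos (by norm_num)
  have hl : Real.log 2 ≤ Real.log (q + 1) := Real.log_le_log (by norm_num) (by linarith)
  have hb0 : 0 ≤ b := by linarith
  have h1 : (3 * q) ^ (2 * m) = Real.exp (2 * m * Real.log (3 * q)) := by
    rw [← Real.exp_log (show 0 < 3 * q by positivity), ← Real.exp_nat_mul]
    rw [Real.log_exp]; push_cast; ring_nf
  have h2 : ((1 : ℝ) / 2) ^ m = Real.exp (-(m * Real.log 2)) := by
    rw [Real.exp_neg, Real.exp_nat_mul, Real.exp_log (by norm_num)]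
    simp
  rw [h1, h2, ← Real.exp_add, ← Real.exp_add]
  apply Real.exp_le_exp.2
  have h3 : Real.log (3 * q) ≤ 2 * Real.log 2 + Real.log (q + 1) := by
    rw [Real.log_mul (by norm_num) (by positivity)]
    have h4 : Real.log 3 ≤ 2 * Real.log 2 := by
      have : (2 : ℝ) * Real.log 2 = Real.log 4 := by
        rw [show (4 : ℝ) = 2 ^ 2 by norm_num, Real.log_pow]; norm_num
      rw [this]
      exact Real.log_le_log (by norm_num) (by norm_num)
    have h5 : Real.log q ≤ Real.log (q + 1) := Real.log_le_log (by positivity) (by linarith)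
    linarith
  have hm : (0 : ℝ) ≤ m := Nat.cast_nonneg _
  have h6 : b * k ≤ b * m := mul_le_mul_of_nonneg_left hk hb0
  have h7 : m * (864 * Real.log (q + 1)) ≤ m * b := mul_le_mul_of_nonneg_left hb hm
  have h8 : m * Real.log 2 ≤ m * Real.log (q + 1) := mul_le_mul_of_nonneg_left hl hm
  have h9 : m * Real.log (3 * q) ≤ m * (2 * Real.log 2 + Real.log (q + 1)) := mul_le_mul_of_nonneg_left h3 hm
  nlinarith

end PRaux

theorem PR (hHF : HF_stmt) (hCS : CS_stmt) (hCC : CC_stmt) : PR_stmt := by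
  classical
  intro ι Z J _ _ _ _ touch β k hβ hk h3 h3' hsp hq
  have hq1 : (1 : ℝ) ≤ Fintype.card ι := by exact_mod_cast (Fintype.card_pos : 0 < Fintype.card ι)
  set q : ℝ := (Fintype.card ι : ℝ) with hqd
  set A : Z → J → Prop := fun z j => ∃ i, touch i z j with hA
  set bad : Finset (Z ⊕ J) → Set (ι × Z → Bool) := fun U => {ε : ι × Z → Bool | β * Fintype.card ι * √((#U.toLeft : ℝ) * #U.toRight) < |∑ z ∈ U.toLeft, ∑ j ∈ U.toRight, am touch ε z j|} with hbad
  set N : ℕ := Fintype.card Z + Fintype.card J with hN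
  set CSm : ℕ → Finset (Finset (Z ⊕ J)) := fun m => Finset.univ.filter (fun U => #U = m ∧ ((bip A).induce (U : Set (Z ⊕ J))).Connected) with hCSm
  set M : Finset ℕ := (Finset.range (N + 1)).filter (fun m => k ≤ (m : ℝ)) with hM
  have hsub : {ε : ι × Z → Bool | ∃ (S : Finset Z) (T : Finset J), β * q * √((#S : ℝ) * #T) < |∑ z ∈ S, ∑ j ∈ T, am touch ε z j|} ⊆ ⋃ m ∈ M, ⋃ U ∈ CSm m, bad U := by
    intro ε hε
    obtain ⟨S, T, hST⟩ := hε
    by_contra hcon
    have hcc := hCC Z J (am touch ε) A (β * q) (by positivity) (by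
      intro z j hzj
      by_contra hno
      apply hzj
      unfold am
      apply Finset.sum_eq_zero
      intro i _
      have : ¬ touch i z j := fun h => hno ⟨i, h⟩
      simp [this]) (by
      intro S T hC
      by_contra hlt
      push Not at hlt
      apply hcon
      have hbig : k ≤ (#S + #T : ℝ) := by
        by_contra hk'
        push Not at hk'
        have h1 := hsp S T hk'
        rw [← prw_count] at h1
        have h2 : |∑ z ∈ S, ∑ j ∈ T, am touch ε z j| ≤ ∑ e : ι × Z, prw touch S T e := by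
          rw [prw_sum]
          refine (Finset.abs_sum_le_sum_abs _ _).trans ?_
          apply Finset.sum_le_sum
          intro e _
          rw [abs_mul, abs_of_nonneg (prw_nonneg touch S T e)]
          have : |sg (ε e)| = 1 := by unfold sg; split_ifs <;> simp
          rw [this, one_mul]
        linarith
      simp only [Set.mem_iUnion]
      refine ⟨#S + #T, ?_, S.disjSum T, ?_, ?_⟩
      · rw [hM, Finset.mem_filter, Finset.mem_range]
        constructor
        · have := Finset.card_le_univ S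
          have := Finset.card_le_univ T
          omega
        · push_cast; exact hbig
      · rw [hCSm]
        simp only [Finset.mem_filter, Finset.mem_univ, true_and]
        exact ⟨Finset.card_disjSum _ _, hC⟩
      · simp only [hbad, Set.mem_setOf_eq, Finset.toLeft_disjSum, Finset.toRight_disjSum]
        exact hlt) S T
    exact absurd hST (not_lt.2 hcc)
  have hfin : ∀ s : Set (ι × Z → Bool), s.Finite := fun s => Set.toFinite s
  have h1 : (Set.ncard {ε : ι × Z → Bool | ∃ (S : Finset Z) (T : Finset J), β * q * √((#S : ℝ) * #T) < |∑ z ∈ S, ∑ j ∈ T, am touch ε z j|} : ℝ) ≤ ∑ m ∈ M, ∑ U ∈ CSm m, (Set.ncard (bad U) : ℝ) := by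
    have h2 : Set.ncard {ε : ι × Z → Bool | ∃ (S : Finset Z) (T : Finset J), β * q * √((#S : ℝ) * #T) < |∑ z ∈ S, ∑ j ∈ T, am touch ε z j|} ≤ ∑ m ∈ M, ∑ U ∈ CSm m, Set.ncard (bad U) := by
      refine (Set.ncard_le_ncard hsub (hfin _)).trans ?_
      refine (Finset.set_ncard_biUnion_le _ _).trans ?_
      apply Finset.sum_le_sum
      intro m _
      exact Finset.set_ncard_biUnion_le _ _
    exact_mod_cast h2
  refine h1.trans ?_
  have h2 : ∀ m ∈ M, ∑ U ∈ CSm m, (Set.ncard (bad U) : ℝ) ≤ N * (2 * Real.exp (-(β ^ 2 * q * k / 216)) * 2 ^ Fintype.card (ι × Z)) * (1 / 2) ^ m := by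
    intro m hm
    have hkm : k ≤ (m : ℝ) := (Finset.mem_filter.1 hm).2
    have h3a : ∀ U ∈ CSm m, (Set.ncard (bad U) : ℝ) ≤ 2 * Real.exp (-(β ^ 2 * q * m / 36)) * 2 ^ Fintype.card (ι × Z) := by
      intro U hU
      have hUm : #U = m := (Finset.mem_filter.1 hU).2.1
      have h4 := pr_bad hHF touch h3 h3' β hβ hq1 U.toLeft U.toRight
      have h5 : (#U.toLeft + #U.toRight : ℝ) = m := by
        rw [← hUm, ← Finset.card_toLeft_add_card_toRight (u := U)]; push_cast; rfl
      rw [h5] at h4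
      exact h4
    have h3b : (#(CSm m) : ℝ) ≤ N * (3 * q) ^ (2 * m) := by
      have h4 := hCS (Z ⊕ J) (bip A) (3 * Fintype.card ι) m (by
        have : 0 < Fintype.card ι := Fintype.card_pos
        omega) (pr_deg touch h3 h3')
      have h5 : #(CSm m) = Set.ncard {S : Finset (Z ⊕ J) | #S = m ∧ ((bip A).induce (S : Set (Z ⊕ J))).Connected} := by
        rw [← Set.ncard_coe_finset]
        congr 1
        ext U
        simp [hCSm]
      rw [h5]
      have h6 : (Set.ncard {S : Finset (Z ⊕ J) | #S = m ∧ ((bip A).induce (S : Set (Z ⊕ J))).Connected} : ℝ) ≤ ((Fintype.card (Z ⊕ J) * (3 * Fintype.card ι) ^ (2 * m) : ℕ) : ℝ) := by exact_mod_cast h4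
      refine h6.trans (le_of_eq ?_)
      rw [Fintype.card_sum]
      push_cast
      simp [hN, hqd]
    calc ∑ U ∈ CSm m, (Set.ncard (bad U) : ℝ) ≤ ∑ _U ∈ CSm m, 2 * Real.exp (-(β ^ 2 * q * m / 36)) * 2 ^ Fintype.card (ι × Z) := Finset.sum_le_sum h3a
      _ = #(CSm m) * (2 * Real.exp (-(β ^ 2 * q * m / 36)) * 2 ^ Fintype.card (ι × Z)) := by rw [Finset.sum_const, nsmul_eq_mul]
      _ ≤ (N * (3 * q) ^ (2 * m)) * (2 * Real.exp (-(β ^ 2 * q * m / 36)) * 2 ^ Fintype.card (ι × Z)) := by
        apply mul_le_mul_of_nonneg_right h3b (by positivity)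
      _ = N * 2 * 2 ^ Fintype.card (ι × Z) * ((3 * q) ^ (2 * m) * Real.exp (-(β ^ 2 * q * m / 36))) := by ring
      _ ≤ N * 2 * 2 ^ Fintype.card (ι × Z) * (Real.exp (-(β ^ 2 * q * k / 216)) * (1 / 2) ^ m) := by
        apply mul_le_mul_of_nonneg_left _ (by positivity)
        exact pr_num q (β ^ 2 * q) hq1 hq m k hkm
      _ = N * (2 * Real.exp (-(β ^ 2 * q * k / 216)) * 2 ^ Fintype.card (ι × Z)) * (1 / 2) ^ m := by ring
  refine (Finset.sum_le_sum h2).trans ?_
  rw [← Finset.mul_sum]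
  have h3 : ∑ m ∈ M, ((1 : ℝ) / 2) ^ m ≤ 2 := by
    have h4 : ∑ m ∈ M, ((1 : ℝ) / 2) ^ m ≤ ∑' m : ℕ, ((1 : ℝ) / 2) ^ m := Summable.sum_le_tsum _ (fun m _ => by positivity) summable_geometric_two
    rwa [tsum_geometric_two] at h4
  calc N * (2 * Real.exp (-(β ^ 2 * q * k / 216)) * 2 ^ Fintype.card (ι × Z)) * ∑ m ∈ M, ((1 : ℝ) / 2) ^ m ≤ N * (2 * Real.exp (-(β ^ 2 * q * k / 216)) * 2 ^ Fintype.card (ι × Z)) * 2 := by
        apply mul_le_mul_of_nonneg_left h3 (by positivity)
    _ = 4 * (Fintype.card Z + Fintype.card J) * Real.exp (-(β ^ 2 * q * k / 216)) * 2 ^ Fintype.card (ι × Z) := by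
      rw [hN]; push_cast; ring

end DH5
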