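import Mathlib

/-! # DH5: abstract finite part of section 5 (static gap) of the proof of S01539 (MP_5823cb_al, helper90's page), spec by helper41.
Rows dh:5xx. No analysis. `sg` = sign of a Boolean, `av` = average over a finite type, `am` = signed touching matrix (not normalised). -/

namespace DH5

open Finset

/-- sign of a Boolean -/
def sg (b : Bool) : ℝ := if b then 1 else -1

/-- average of a real function over a finite type -/
noncomputable def av {Ω : Type} [Fintype Ω] (f : Ω → ℝ) : ℝ := (Fintype.card Ω : ℝ)⁻¹ * ∑ ω, f ω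

/-- average of a vector valued function over a finite type -/
noncomputable def avE {Ω W : Type} [Fintype Ω] [AddCommGroup W] [Module ℝ W] (f : Ω → W) : W := (Fintype.card Ω : ℝ)⁻¹ • ∑ ω, f ω

open Classical in
/-- signed touching matrix -/
noncomputable def am {ι Z J : Type} [Fintype ι] (touch : ι → Z → J → Prop) (ε : ι × Z → Bool) : Matrix Z J ℝ :=
  fun z j => ∑ i : ι, sg (ε (i, z)) * (if touch i z j then 1 else 0)

/-- the bilinear form of a matrix is bounded by `B` -/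
def BB {Z J : Type} [Fintype Z] [Fintype J] (a : Matrix Z J ℝ) (B : ℝ) : Prop :=
  ∀ (x : J → ℝ) (y : Z → ℝ), |∑ z, ∑ j, y z * a z j * x j| ≤ B * √((∑ z, y z ^ 2) * ∑ j, x j ^ 2)

/-- orthogonal projections of rank `≤ D` with sum `1` -/
structure PF {J V : Type} [Fintype J] [NormedAddCommGroup V] [InnerProductSpace ℝ V] (P : J → V →L[ℝ] V) (D : ℕ) : Prop where
  idem : ∀ j, (P j).comp (P j) = P j
  sa : ∀ j v w, inner ℝ (P j v) w = inner ℝ v (P j w)
  orth : ∀ j j', j ≠ j' → (P j).comp (P j') = 0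
  sum : ∑ j, P j = ContinuousLinearMap.id ℝ V
  rk : ∀ j, Module.finrank ℝ (LinearMap.range ((P j : V →L[ℝ] V) : V →ₗ[ℝ] V)) ≤ D

/-- bipartite graph of a relation -/
def bip {Z J : Type} (A : Z → J → Prop) : SimpleGraph (Z ⊕ J) :=
  SimpleGraph.fromRel (fun x y => ∃ z j, x = Sum.inl z ∧ y = Sum.inr j ∧ A z j)

/-- the pair `(S, T)` is connected in the bipartite graph of `A` -/
def Con {Z J : Type} (A : Z → J → Prop) (S : Finset Z) (T : Finset J) : Prop :=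
  ((bip A).induce ((S.disjSum T : Finset (Z ⊕ J)) : Set (Z ⊕ J))).Connected

/-- TD (LONG): TRACE DOMINATION.
PROOF. `S = ∑ e, sg (ε e) • T e.1 e.2`. `‖S‖^(2t) = ‖(S† S)^t‖ ≤ tr ((S† S)^t) = ∑_j tr (P j (S† S)^t P j)` (positive operator on the finite dimensional `V`; or avoid the trace:
`∑ over an orthonormal basis b of V adapted to the ranges of the P j of ⟪b, (S† S)^t b⟫`). `S† S = ∑_k A_k`, `k = (z, i, i', j, j')`, `A_k = sg ε(i,z) * sg ε(i',z) • (P j ∘ (T i z)† ∘ T i' z ∘ P j')` (different `z` are orthogonal, `∑ P = 1`).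
`(∑ A_k)^t = ∑ over words w : Fin t → k of the products`. The product of the operators `P (T†T) P` of a word has trace `0` unless it is closed (`j'_(l) = j_(l+1)` cyclically) and all `touch i z j`, `touch i' z j'` hold; otherwise the trace is
`≤ D c^(2t)` in absolute value (an operator `X = P j X` has trace `≤ finrank(range P j) * ‖X‖`; norms of projections `≤ 1`). Do the same with `V := EuclideanSpace ℝ J`, i.e. expand `tr ((aᵀ a)^t)`, `a = am touch ε`: the SAME words with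
coefficients `0` or `1` (`1` iff closed and touching) and the same sign products. The average over `ε` of a product of signs is `0` or `1`, so `≥ 0`, and `∑_w E[signs] x_w ≤ ∑_w E[signs] y_w` if `|x_w| ≤ y_w`. `t = 0` is allowed only if true; the statement has `1 ≤ t`. -/
def TD_stmt : Prop := ∀ (ι Z J : Type) [Fintype ι] [Fintype Z] [Fintype J] [DecidableEq ι] [DecidableEq Z] [DecidableEq J] (V H : Type) [NormedAddCommGroup V] [InnerProductSpace ℝ V] [FiniteDimensional ℝ V]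
  [NormedAddCommGroup H] [InnerProductSpace ℝ H] [CompleteSpace H] (P : J → V →L[ℝ] V) (T : ι → Z → V →L[ℝ] H) (touch : ι → Z → J → Prop) (D t : ℕ) (c : ℝ), 1 ≤ t → 0 ≤ c → PF P D →
  (∀ i z, ‖T i z‖ ≤ c) → (∀ i i' z z', z ≠ z' → ∀ v w, inner ℝ (T i z v) (T i' z' w) = 0) → (∀ i z j, ¬ touch i z j → (T i z).comp (P j) = 0) →
  av (fun ε : ι × Z → Bool => ‖∑ e : ι × Z, sg (ε e) • T e.1 e.2‖ ^ (2 * t)) ≤ D * c ^ (2 * t) * av (fun ε : ι × Z → Bool => Matrix.trace (((am touch ε).transpose * am touch ε) ^ t))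

/-- BL (medium/LONG): BILU-LINIAL.
PROOF. (1) Randomised rounding: a real `x` with `2^(-k) ≤ |x| ≤ 2^(1-k)` is a convex combination of `± 2^(-k)`, `± 2^(1-k)` (same sign); the form is bilinear in the coordinates, so `|y a x| ≤ max` over vectors `x', y'` with all coordinates in `{0} ∪ {± 2^k}`, `|x'_j| ≤ 2 |x_j|`,
`|y'_z| ≤ 2 |y_z|` (coordinatewise extreme point argument: a function affine in each coordinate on a box is `≤` its value at a vertex). So it is enough to bound the form for such dyadic vectors by `K/4 ...`.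
(2) `x = ∑_k 2^k u_k`, `u_k ∈ {0,1,-1}` with disjoint supports of size `s_k`; `y = ∑_l 2^l v_l`, supports `t_l`. `|v_l a u_k| ≤ 4 β √(s_k t_l)` (split by signs). For `|k - l| ≤ γ`: `∑ 2^(k+l) 4 β √(s_k t_l) ≤ 2 β ∑ (4^k s_k + 4^l t_l) ≤ 2 β (2γ+1) (‖x‖² + ‖y‖²)`.
For `l < k - γ`: `∑_l 2^(k+l) |v_l a u_k| ≤ 2^(2k-γ) ∑_{j ∈ supp u_k} ∑_z |a z j| ≤ 4^k 2^(-γ) L s_k`; symmetric. Take `2^(-γ) ~ β/L`. For unit vectors (homogeneity; zero vectors trivial) total `≤ K β (1 + log (L/β))`. -/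
def BL_stmt : Prop := ∃ K : ℝ, 1 ≤ K ∧ ∀ (Z J : Type) [Fintype Z] [Fintype J] (a : Matrix Z J ℝ) (L β : ℝ), 0 < β → β ≤ L → (∀ z, ∑ j, |a z j| ≤ L) → (∀ j, ∑ z, |a z j| ≤ L) →
  (∀ (S : Finset Z) (T : Finset J), |∑ z ∈ S, ∑ j ∈ T, a z j| ≤ β * √((#S : ℝ) * #T)) → BB a (K * β * (1 + Real.log (L / β)))

/-- TR (short): trace of `(aᵀ a)^t` from the bilinear bound. (`⟪x, (aᵀa)^t x⟫ ≤ B^(2t) ‖x‖²` by induction: `‖a x‖ ≤ B ‖x‖` (`y = a x`), `‖aᵀ y‖ ≤ B ‖y‖`, so `‖(aᵀa)^t x‖ ≤ B^(2t) ‖x‖`; trace = sum of the diagonal entries.) -/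
def TR_stmt : Prop := ∀ (Z J : Type) [Fintype Z] [Fintype J] [DecidableEq J] (a : Matrix Z J ℝ) (B : ℝ) (t : ℕ), 0 ≤ B → BB a B → Matrix.trace ((a.transpose * a) ^ t) ≤ Fintype.card J * B ^ (2 * t)

/-- SH (short): Schur: row and column sums `≤ L` give the bilinear bound `L`. (`|y a x| ≤ (|y|² + |x|²)/2 * |a z j|`, homogeneity.) -/
def SH_stmt : Prop := ∀ (Z J : Type) [Fintype Z] [Fintype J] (a : Matrix Z J ℝ) (L : ℝ), 0 ≤ L → (∀ z, ∑ j, |a z j| ≤ L) → (∀ j, ∑ z, |a z j| ≤ L) → BB a L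

/-- HF (short/medium): HOEFFDING for signs. (`E exp (λ ∑ sg(ε_e) w_e) = ∏ cosh (λ w_e) ≤ exp (λ² W/2)`, `Real.cosh_le_exp_half_sq`, `Finset.prod_univ_sum`/`Fintype.piFinset`, Markov with `λ = u/W`, both signs.) -/
def HF_stmt : Prop := ∀ (E : Type) [Fintype E] (w : E → ℝ) (u W : ℝ), 0 ≤ u → 0 < W → ∑ e, w e ^ 2 ≤ W →
  (Set.ncard {ε : E → Bool | u < |∑ e, sg (ε e) * w e|} : ℝ) ≤ 2 * Real.exp (-(u ^ 2 / (2 * W))) * 2 ^ Fintype.card E

/-- CS (medium): number of connected sets. PROOF. A connected finite set of size `k` containing `x` is the set of vertices of a walk of length `2(k-1)` starting at `x` (induction on `k`: remove a vertex `v ≠ x` which is not a cut vertex,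
`SimpleGraph.Connected.exists_connected_induce_compl_singleton_of_finite_nontrivial` or a spanning tree leaf; insert the detour `w → v → w`). A walk of length `n` from `x` is determined by `n` choices among `≤ Δ` neighbours: `≤ Δ^n` walks
(choose for every vertex an injection of its neighbours into `Fin Δ`). -/
def CS_stmt : Prop := ∀ (X : Type) [Fintype X] (G : SimpleGraph X) (Δ k : ℕ), 1 ≤ Δ → (∀ x, Set.ncard {y | G.Adj x y} ≤ Δ) →
  Set.ncard {S : Finset X | #S = k ∧ (G.induce (S : Set X)).Connected} ≤ Fintype.card X * Δ ^ (2 * k)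

/-- CC (medium): it is enough to look at connected pairs. PROOF. Connected components `C` of the induced graph on `S ⊔ T`: `S = ⊔ S_C`, `T = ⊔ T_C`, `∑_{S×T} a = ∑_C ∑_{S_C × T_C} a` (no edges between different components), `(S_C, T_C)` connected;
Cauchy-Schwarz `∑ √(s_C t_C) ≤ √(∑ s_C ∑ t_C)`. (Or strong induction on `#S + #T`: split off one component.) -/
def CC_stmt : Prop := ∀ (Z J : Type) [Fintype Z] [Fintype J] (a : Matrix Z J ℝ) (A : Z → J → Prop) (β : ℝ), 0 ≤ β → (∀ z j, a z j ≠ 0 → A z j) →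
  (∀ (S : Finset Z) (T : Finset J), Con A S T → |∑ z ∈ S, ∑ j ∈ T, a z j| ≤ β * √((#S : ℝ) * #T)) →
  ∀ (S : Finset Z) (T : Finset J), |∑ z ∈ S, ∑ j ∈ T, a z j| ≤ β * √((#S : ℝ) * #T)

/-- SY (medium): SYMMETRISATION. PROOF. Independent copy `ω'`: by Jensen `‖∑ (X e (ω e) - avE X e)‖^p ≤ av_ω' ‖∑ (X e (ω e) - X e (ω' e))‖^p`; for every `ε` the map swapping `ω e` and `ω' e` where `ε e = false` is a bijection of pairs, so
`av_(ω,ω') ‖∑ (..)‖^p = av_ε av_(ω,ω') ‖∑ sg (ε e) • (X e (ω e) - X e (ω' e))‖^p`; `(a + b)^p ≤ 2^(p-1) (a^p + b^p)`. -/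
def SY_stmt : Prop := ∀ (E Ω : Type) [Fintype E] [DecidableEq E] [Fintype Ω] [Nonempty Ω] (W : Type) [NormedAddCommGroup W] [NormedSpace ℝ W] (X : E → Ω → W) (p : ℕ), 1 ≤ p →
  av (fun ω : E → Ω => ‖∑ e, (X e (ω e) - avE (X e))‖ ^ p) ≤ 2 ^ p * av (fun ω : E → Ω => av (fun ε : E → Bool => ‖∑ e, sg (ε e) • X e (ω e)‖ ^ p))

/-- PR (medium, helper41): probability of a bad pair. Uses HF, CS, CC. -/
def PR_stmt : Prop := ∀ (ι Z J : Type) [Fintype ι] [Fintype Z] [Fintype J] [Nonempty ι] (touch : ι → Z → J → Prop) (β k : ℝ), 0 < β → 0 ≤ k →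
  (∀ i z, Set.ncard {j | touch i z j} ≤ 3) → (∀ i j, Set.ncard {z | touch i z j} ≤ 3) →
  (∀ (S : Finset Z) (T : Finset J), (#S + #T : ℝ) < k → (Set.ncard {e : ι × Z × J | e.2.1 ∈ S ∧ e.2.2 ∈ T ∧ touch e.1 e.2.1 e.2.2} : ℝ) ≤ β * Fintype.card ι * √((#S : ℝ) * #T)) →
  864 * Real.log (Fintype.card ι + 1) ≤ β ^ 2 * Fintype.card ι →
  (Set.ncard {ε : ι × Z → Bool | ∃ (S : Finset Z) (T : Finset J), β * Fintype.card ι * √((#S : ℝ) * #T) < |∑ z ∈ S, ∑ j ∈ T, am touch ε z j|} : ℝ) ≤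
    4 * (Fintype.card Z + Fintype.card J) * Real.exp (-(β ^ 2 * Fintype.card ι * k / 216)) * 2 ^ Fintype.card (ι × Z)

/-- GAP (medium, helper41): the final statement of the abstract part. Uses TD, BL, TR, SH, SY, PR. -/
def GAP_stmt : Prop := ∃ K₀ : ℝ, 1 ≤ K₀ ∧ ∀ (ι Z J Ω : Type) [Fintype ι] [Fintype Z] [Fintype J] [Fintype Ω] [Nonempty ι] [Nonempty Ω] (V H : Type) [NormedAddCommGroup V] [InnerProductSpace ℝ V] [FiniteDimensional ℝ V]
  [NormedAddCommGroup H] [InnerProductSpace ℝ H] [CompleteSpace H] (P : J → V →L[ℝ] V) (X : ι → Z → Ω → V →L[ℝ] H) (touch : ι → Z → J → Prop) (D t : ℕ) (β k : ℝ), 1 ≤ D → 1 ≤ t → PF P D →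
  (∀ i z o, ‖X i z o‖ ≤ 11 / 10) → (∀ i i' z z' o o', z ≠ z' → ∀ v w, inner ℝ (X i z o v) (X i' z' o' w) = 0) → (∀ i z o j, ¬ touch i z j → (X i z o).comp (P j) = 0) →
  (∀ i z, Set.ncard {j | touch i z j} ≤ 3) → (∀ i j, Set.ncard {z | touch i z j} ≤ 3) → 0 < β → β ≤ 1 → 0 ≤ k →
  (∀ (S : Finset Z) (T : Finset J), (#S + #T : ℝ) < k → (Set.ncard {e : ι × Z × J | e.2.1 ∈ S ∧ e.2.2 ∈ T ∧ touch e.1 e.2.1 e.2.2} : ℝ) ≤ β * Fintype.card ι * √((#S : ℝ) * #T)) →
  K₀ * Real.log (Fintype.card ι + 1) ≤ β ^ 2 * Fintype.card ι → K₀ * t * Real.log (2 / β) ≤ β ^ 2 * Fintype.card ι * k → (D : ℝ) * (Fintype.card Z + Fintype.card J) ≤ 2 ^ (2 * t) →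
  (Set.ncard {ω : ι × Z → Ω | K₀ * β * Real.log (2 / β) < ‖((Fintype.card ι : ℝ))⁻¹ • ∑ e : ι × Z, (X e.1 e.2 (ω e) - avE (X e.1 e.2))‖} : ℝ) ≤ (1 / 2) ^ (4 * t) * Nat.card (ι × Z → Ω)

end DH5
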