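import Pool.Agent.helper90.DH.Iface
import Pool.Agent.helper41.G5.Spec

/-!
# Project d2: (MP_5823cb_al): spec G, the analytic part of the static gap (helper41)

Rows d2:g*. Module `XX` is `theorem XX (hYY : YY_stmt) … : XX_stmt` in `Pool/Agent/<seat>/G5/XX.lean`, `import Pool.Agent.helper41.G5.SpecG` (never other modules), `set_option autoImplicit false`, `open Filter Topology MeasureTheory`, `namespace Pool.Agent.helper90.DH`,
`open Pool.Agent.helper64.D2`; auxiliary lemmas prefixed `XX_`. No `sorry`, no double quotes, no `#` commands, no `native_decide`, no `axiom`.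
-/

set_option autoImplicit false

open Filter Topology MeasureTheory
open scoped commutatorElement

namespace Pool.Agent.helper90.DH

open Pool.Agent.helper64.D2

/-! ## Definitions -/

/-- The functions of level exactly `s`. -/
def VS (s : ℕ) (f : ℝ → ℝ) : Prop := PA (s + 1) f ∧ Su f ∧ ∀ x, Es s f x = 0

/-- Bi-Lipschitz increasing maps with constants `9/10`, `11/10`. -/
def NL (C : ℝ → ℝ) : Prop := ∀ x y : ℝ, x ≤ y → 9 / 10 * (y - x) ≤ C y - C x ∧ C y - C x ≤ 11 / 10 * (y - x)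

/-- Touching: some point of the cell `2z+p` (level `u`) is mapped by some `C i o` into the cell `j`, which meets `[1/5,4/5]`. -/
def tch {ι : Type} (u p N : ℕ) (C : ι → ℕ → ℝ → ℝ) (i : ι) (z : Fin (2 ^ (u - 1))) (j : Fin (2 ^ u)) : Prop :=
  (cell u (j : ℕ) ∩ Set.Icc (1 / 5 : ℝ) (4 / 5)).Nonempty ∧ ∃ x ∈ cell u ((2 * (z : ℕ) + p : ℕ) : ℤ), ∃ o < N, C i o x ∈ cell u (j : ℕ)

open Classical in
/-- The part of parity `p` of the average of `f` over the maps with digits `ω`. -/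
noncomputable def Tp {ι : Type} [Fintype ι] (u p N : ℕ) (C : ι → ℕ → ℝ → ℝ) (ω : ι × Fin (2 ^ (u - 1)) → Fin N) (f : ℝ → ℝ) (x : ℝ) : ℝ :=
  ∑ z : Fin (2 ^ (u - 1)), if x ∈ cell u ((2 * (z : ℕ) + p : ℕ) : ℤ) then (∑ i : ι, f (C i (ω (i, z)) x)) / Fintype.card ι else 0

/-- The probability space of the digits. -/
abbrev Om (q u N : ℕ) : Type := Fin q × Fin (2 ^ u) → Fin N

/-- The digits as a function of natural numbers. -/
def dg {q u N : ℕ} (ω : Om q u N) (i l : ℕ) : ℕ := if h : i < q ∧ l < 2 ^ u then (ω (⟨i, h.1⟩, ⟨l, h.2⟩) : ℕ) else 0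

/-! ## Elementary facts -/

/-- **gNIB** (short). Elements of `DD` are near the identity. Proof. `Pool.Agent.helper64.D2.BAS_stmt` for `X = ev g - id`, `[p,q] = [0,1]` (import `Pool.Agent.helper64.D2.SpecC`; it is a hypothesis `hBAS`; proved in helper70/D2/BAS.lean): `|X'| ≤ a`, `|X| ≤ a`; mean value. -/
def gNIB_stmt : Prop := ∀ (g : DD) (a : ℝ), 0 ≤ a → Sz g a → (∀ x, |ev g x - x| ≤ a) ∧ (∀ x, |deriv (ev g) x - 1| ≤ a) ∧
  ∀ x y, |(ev g x - ev g y) - (x - y)| ≤ a * |x - y|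

/-- **gL2T** (short). Proof. (1) Minkowski: expand, `∫ A B ≤ √(∫A²) √(∫B²)` (`MeasureTheory.integral_mul_le_Lp_mul_Lq` or discriminant of `∫ (A + t B)^2 ≥ 0`), or `Lp` norms (`toLp`). (2) `((Σ u_i)/n)^2 ≤ (Σ u_i^2)/n` (`inner_mul_le_norm_mul_norm`, `Finset.sum_div_card_le…`, `sq_sum_le_card_mul_sum_sq`), integrate. -/
def gL2T_stmt : Prop := (∀ A B : ℝ → ℝ, MemLp A 2 volume → MemLp B 2 volume → √(nsq (fun x => A x + B x)) ≤ √(nsq A) + √(nsq B)) ∧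
  ∀ (κ : Type) (S : Finset κ) (A : κ → ℝ → ℝ) (M : ℝ), S.Nonempty → (∀ i ∈ S, MemLp (A i) 2 volume ∧ nsq (A i) ≤ M) → nsq (fun x => (∑ i ∈ S, A i x) / S.card) ≤ M

/-- **gFNC** (medium). Piecewise affine functions with support in `[1/5,4/5]`, composition with bi-Lipschitz maps.
Proof. `f` is a finite sum of `indicator (cell s k) (a + b x)` (cells which meet `[1/5,4/5]`), so measurable, bounded, compactly supported. `C` is strictly increasing and Lipschitz, so continuous, measurable; `|x - y| ≤ (10/9)|C x - C y|`: `AntilipschitzWith`, so `volume (C⁻¹ A) ≤ (10/9) volume A`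
(`AntilipschitzWith.hausdorffMeasure_preimage_le` with `d = 1`, `MeasureTheory.hausdorffMeasure_real`; or intervals), hence `volume.map C ≤ (10/9) • volume` and `∫ f(C x)^2 ≤ (10/9) ∫ f^2` (`lintegral_map`, `lintegral_mono'`). -/
def gFNC_stmt : Prop := ∀ (s : ℕ) (f C : ℝ → ℝ), PA s f → Su f → NL C → Measurable f ∧ Measurable C ∧ (∃ B : ℝ, ∀ x, |f x| ≤ B) ∧ Integrable f volume ∧ MemLp f 2 volume ∧
  MemLp (fun x => f (C x)) 2 volume ∧ nsq (fun x => f (C x)) ≤ 10 / 9 * nsq f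

/-- **gJMP** (medium). Comparison of two maps. uses: gFNC (measurability, integrability).
Proof. For the cell `k` of level `s+1` (`h = 2^-(s+1)`) let `m_k = sup_(cell) |f|`; `m_k^2 ≤ (4/h) ∫_cell f^2` (`f = a + b(x - centre)`: `m ≤ |a| + |b| h/2`, `∫ f^2 = h (a^2 + b^2 h^2/12)`). If `C x`, `C' x` are in the same cell then `|f (C' x) - f (C x)| ≤ (2 m_k/h) η 2^-s = 4 η m_k` and the square is at most `16 η m_k^2`;
the measure of `{x | C x ∈ cell k}` is `≤ (10/9) h`. Otherwise `C x` is within `η/2^s` of an end point of its cell (level `s+1`), and so is `C' x`, and the square is at most `2 f (C x)^2 + 2 f (C' x)^2`; the measure of `{x | C x ∈ cell k, C x within η/2^s of an end point}` is at most `(10/9) 2 η/2^s = (40/9) η h`; the same for `C'`.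
Sum over the cells: `∫ ≤ Σ_k m_k^2 (16 η (10/9) h + 2 · 2 (40/9) η h) ≤ K η Σ_k ∫_cell f^2`. -/
def gJMP_stmt : Prop := ∃ K : ℝ, 1 ≤ K ∧ ∀ (s : ℕ) (η : ℝ) (C C' f : ℝ → ℝ), 0 ≤ η → η ≤ 1 → NL C → NL C' → (∀ x, |C' x - C x| ≤ η / 2 ^ s) → PA (s + 1) f → Su f →
  nsq (fun x => f (C' x) - f (C x)) ≤ K * η * nsq f

/-- **gESZ** (short/medium). The two moments.
Proof. `ci s x = k` iff `x ∈ cell s k`; on the cell `Es s f x` is an affine function of `x` with coefficients `2^s ∫ f` and `12·2^(3s) ∫ (t - mid) f`; it vanishes at two points of the cell (e.g. the centre and the left end point) iff both integrals vanish. `mid s x = (k + 1/2)/2^s`. -/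
def gESZ_stmt : Prop := ∀ (s : ℕ) (f : ℝ → ℝ), (∀ x, Es s f x = 0) ↔ ∀ k : ℤ, (∫ t in cell s k, f t) = 0 ∧ (∫ t in cell s k, (t - ((k : ℝ) + 1 / 2) / 2 ^ s) * f t) = 0

/-! ## Perturbation and all families (statements of the interface) -/
-- gPERT (short/medium): theorem gPERT (hNIB : gNIB_stmt) (hL2T : gL2T_stmt) (hFNC : gFNC_stmt) (hJMP : gJMP_stmt) : PERT_stmt
-- gGALL (short/medium): theorem gGALL (hNIB : gNIB_stmt) (hL2T : gL2T_stmt) (hFNC : gFNC_stmt) : GALL_stmt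

/-! ## Mean over the window -/

/-- **gPRI** (medium). The continuous average. uses: gNIB, gFNC, gESZ.
Proof. `F z = ∫_(t < z) f` is continuous, with right derivative `f` (which is right continuous), and `|F z| ≤ ∫_(cell s of z) |f|` because the integral over every cell of level `s` is `0` (gESZ); so `∫ F^2 ≤ 4^-s ∫ f^2`. With `g = P(y + v)`, `w = 1/P'(y + v)` (`C^1`, `|w| ≤ 11/10`, `|w'| ≤ 1/500`):
`∫_0^τ f(P(y+v)) dv = ∫_0^τ (F(P(y+v)))' w dv = [F(P(y+v)) w]_0^τ - ∫_0^τ F(P(y+v)) w' dv` (`intervalIntegral.integral_mul_deriv_eq_deriv_mul_of_hasDeriv_right`). Divide by `τ`; `L^2` norm in `y` (gFNC-type change of variables for `F`; Cauchy-Schwarz for the last term and `τ ≤ 1`): `≤ K 2^-s/τ · √(nsq f)`. -/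
def gPRI_stmt : Prop := ∃ K : ℝ, 1 ≤ K ∧ ∀ (s : ℕ) (τ : ℝ) (P : DD) (f : ℝ → ℝ), 0 < τ → τ ≤ 1 → Sz P (1 / 1000) → VS s f →
  nsq (fun y => (1 / τ) * ∫ v in (0 : ℝ)..τ, f (ev P (y + v))) ≤ K / (2 ^ s * τ) ^ 2 * nsq f

/-- **gRIE** (medium). The Riemann sum. uses: gNIB, gFNC, gJMP.
Proof. With `δ(v) = v - (τ/N) ⌊v N/τ⌋ ∈ [0, τ/N)`: the difference is `(1/τ) ∫_0^τ [f(P(y + v - δ(v))) - f(P(y + v))] dv`; by Cauchy-Schwarz its square is at most `(1/τ) ∫_0^τ [..]^2 dv`; integrate in `y` (Fubini/Tonelli: everything is bounded, measurable and supported in a bounded set) and use gJMP for the maps `y ↦ P(y + v - δ)`, `y ↦ P(y + v)`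
with `η = (11/10) 2^s τ/N ≤ 1`. Or (without Fubini): write the integral as the sum over the `N` intervals and substitute `v = (o + w) τ/N`, `w ∈ [0,1]`. -/
def gRIE_stmt : Prop := ∃ K : ℝ, 1 ≤ K ∧ ∀ (s N : ℕ) (τ : ℝ) (P : DD) (f : ℝ → ℝ), 1 ≤ N → 0 < τ → τ ≤ 1 → 2 ^ (s + 1) * τ ≤ N → Sz P (1 / 1000) → PA (s + 1) f → Su f →
  nsq (fun y => (∑ o ∈ Finset.range N, f (ev P (y + τ * ((o : ℝ) / N)))) / N - (1 / τ) * ∫ v in (0 : ℝ)..τ, f (ev P (y + v))) ≤ K * (2 ^ s * τ / N) * nsq f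

/-- **gMEA** (medium). The mean. uses: gPRI, gRIE, gNIB, gL2T, gFNC.
Proof. `A y` = Riemann sum = (difference) + (continuous average): `nsq A ≤ 2 (…) + 2 (…)` (`(a+b)^2 ≤ 2a^2 + 2b^2`; integrability of the squares: bounded, measurable, bounded support). Then `y = B x`: `∫ A(B x)^2 dx ≤ (10/9) ∫ A^2` (the change of variables of gFNC for a general measurable function: prove it again as in gFNC). -/
def gMEA_stmt : Prop := ∃ K : ℝ, 1 ≤ K ∧ ∀ (s N : ℕ) (τ : ℝ) (P : DD) (B f : ℝ → ℝ), 1 ≤ N → 0 < τ → τ ≤ 1 → 2 ^ (s + 1) * τ ≤ N → Sz P (1 / 1000) → NL B → VS s f →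
  nsq (fun x => (∑ o ∈ Finset.range N, f (ev P (B x + τ * ((o : ℝ) / N)))) / N) ≤ K * (1 / (2 ^ s * τ) ^ 2 + 2 ^ s * τ / N) * nsq f

/-! ## The space of level `s` -/

/-- **gVSP** (medium/LONG). `VS s` as a Euclidean space. uses: gFNC, gESZ.
Proof. The set of `f` with `VS s f` is a submodule `W` of `ℝ → ℝ` (linearity of `Es`: integrability from gFNC). `f ∈ W` is determined by its values at the points `k/2^(s+1)` and `(k+1/2)/2^(s+1)`, `0 ≤ k < 2^(s+1)` (it is affine on the cells and vanishes on the cells outside `[0,1)`), so `finrank W ≤ 2^(s+2)`. `⟨f,g⟩ = ∫ f g` is an inner product on `W`: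
definite since `∫ f^2 = 0` gives `f = 0` a.e., hence `f = 0` on every cell (affine functions, cells of positive measure). `InnerProductSpace.Core`/`InnerProductSpace.ofCore`, `stdOrthonormalBasis`, its `repr` (`LinearIsometryEquiv`) gives `F`. (Alternative: Gram-Schmidt by induction on the dimension, or explicit basis: on a cell `[0,1)` of level `s` the functions
`√3 (2·|2x-1| - 1)` and `sgn(2x-1) (3·|2x-1| - 2)`.) -/
def gVSP_stmt : Prop := ∀ s : ℕ, ∃ (n : ℕ) (F : EuclideanSpace ℝ (Fin n) →ₗ[ℝ] (ℝ → ℝ)), n ≤ 2 ^ (s + 2) ∧ (∀ v, VS s (F v)) ∧ (∀ f, VS s f → ∃ v, F v = f) ∧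
  ∀ v w, ∫ x, F v x * F w x = inner ℝ v w

/-- **gVPR** (medium). The projections on the cells of level `u ≤ s`. uses: gESZ, gFNC.
Proof. For `f ∈ VS s` the function `1_(cell u j) f` is in `VS s` (cells of level `u` are unions of cells of level `s`). `F` is injective (`∫ (F v)^2 = ‖v‖^2`), so `P j v := F⁻¹ (1_(cell u j) F v)` is well defined and linear, continuous (finite dimension, `LinearMap.toContinuousLinearMap`). `idem`, `orth` (disjoint cells), `sum` (`F v` vanishes outside `[0,1)`, the union of the cells):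
apply `F` and injectivity; `sa`: `∫ 1_cell F v F w`. `rk`: `finrank ≤ n ≤ D`. -/
def gVPR_stmt : Prop := ∀ (s u n D : ℕ) (F : EuclideanSpace ℝ (Fin n) →ₗ[ℝ] (ℝ → ℝ)), u ≤ s → n ≤ D → (∀ v, VS s (F v)) → (∀ f, VS s f → ∃ v, F v = f) → (∀ v w, ∫ x, F v x * F w x = inner ℝ v w) →
  ∃ P : Fin (2 ^ u) → EuclideanSpace ℝ (Fin n) →L[ℝ] EuclideanSpace ℝ (Fin n), DH5.PF P D ∧ ∀ (j : Fin (2 ^ u)) (v : EuclideanSpace ℝ (Fin n)), F (P j v) = (cell u (j : ℕ)).indicator (F v)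

/-! ## Touching -/

/-- **gCNT** (short/medium). Number of touchings.
Proof. (1) `i`, `z` fixed, `C i o x ∈ cell j`, `C i o' x' ∈ cell j'`: `|C i o x - C i o' x'| ≤ (11/10) 2^-u + 2^-u/20`, so `|j - j'| ≤ 2`: at most `3` values. (2) `i`, `j` fixed, `x ∈ cell (2z+p)`, `x' ∈ cell (2z'+p)`: `(9/10)|x - x'| ≤ |C i o x - C i o x'| ≤ 2^-u + 2^-u/20`, so `|x - x'| ≤ (7/6) 2^-u`, `|2z - 2z'| ≤ 2`: at most `2` values. -/
def gCNT_stmt : Prop := ∀ (ι : Type) (u p N : ℕ) (C : ι → ℕ → ℝ → ℝ), (∀ i o, NL (C i o)) → (∀ i, ∀ o < N, ∀ o' < N, ∀ x, |C i o x - C i o' x| ≤ 1 / (20 * 2 ^ u)) →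
  (∀ i z, Set.ncard {j | tch u p N C i z j} ≤ 3) ∧ ∀ i j, Set.ncard {z | tch u p N C i z j} ≤ 3

/-- **gSCT** (medium). Small sets have few touchings. uses: gCNT, gNIB.
Proof. Let `e` be the number of touching triples. (a) `e ≤ 3 #L min(#S,#T)` (gCNT). (b) `e ≤ 9 th q (#S + #T)`: points `p_a` = centres `(2z+p+1/2)/2^u` of the cells of `S`, then the centres of the cells of `T` (`k' = #S + #T` points, enumerate `S` and `T`); they are in `[1/6,5/6]` when they occur in a touching triple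
(`cell j` meets `[1/5,4/5]`, `2^-u ≤ 1/128`, `|C i o x - x| ≤ 1/100 + 2^-u/40`), other points may be replaced by `1/2` (they occur in no edge). For a touching triple `|ev (c i) (centre z) - centre j| ≤ (11/10) 2^-u + 2^-u/40 + 2^-u ≤ 4/2^u`. Split the triples in `9` classes by `z % 3`, `j % 3`: in a class, for fixed `i`, two triples with the same `z` (or the same `j`)
are equal (gCNT proof: the touched `j` satisfy `|j - j'| ≤ 2`, the `z` satisfy `|z - z'| ≤ 1`), so every class is the set of edges of partial injections and `SPR` (with `k' < k`) gives `≤ th q k'`. (c) `e^2 ≤ 27 th q #L (#S+#T) min ≤ 54 th q #L #S #T ≤ β^2 #L^2 #S #T`. -/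
def gSCT_stmt : Prop := ∀ (q u p N : ℕ) (c : ℕ → DD) (L : Finset ℕ) (C : L → ℕ → ℝ → ℝ) (β k th : ℝ), 7 ≤ u → p ≤ 1 → L ⊆ Finset.range q → L.Nonempty → 0 < β → 0 ≤ th → 54 * th * q ≤ β ^ 2 * L.card →
  (∀ i, Sz (c i) (1 / 100)) → (∀ i o, NL (C i o)) → (∀ i : L, ∀ o < N, ∀ x, |C i o x - ev (c i) x| ≤ 1 / (40 * 2 ^ u)) → (∀ k' : ℕ, (k' : ℝ) < k → SPR q c u k' th 4) →
  ∀ (S : Finset (Fin (2 ^ (u - 1)))) (T : Finset (Fin (2 ^ u))), (S.card + T.card : ℝ) < k →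
    (Set.ncard {e : L × Fin (2 ^ (u - 1)) × Fin (2 ^ u) | e.2.1 ∈ S ∧ e.2.2 ∈ T ∧ tch u p N C e.1 e.2.1 e.2.2} : ℝ) ≤ β * Fintype.card L * √((S.card : ℝ) * T.card)

/-! ## The probabilistic estimate -/

/-- **gOPX** (medium/LONG). The operators. uses: gFNC.
Proof. `H = Lp ℝ 2 volume` (it is in `Type`). For `v` let `X i z o v = toLp (1_(cell u (2z+p)) · F v ∘ C i o)` (`MemLp` from gFNC, `MemLp.indicator`); linear in `v`; `‖X i z o v‖^2 = ∫_cell (F v (C i o x))^2 ≤ (10/9) nsq (F v) = (10/9) ‖v‖^2 ≤ (11/10)^2 ‖v‖^2` (`LinearMap.mkContinuous`). Different `z`: disjoint cells, the product is `0`. Not touching: `F (P j v)` vanishes outside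
`cell u j` and outside `[1/5,4/5]`, so `F (P j v) (C i o x) = 0` for `x` in the cell. Last claim: the function is `Σ_z 1_cell (Σ_i …)`, use `integral` of the square of the class. -/
def gOPX_stmt : Prop := ∀ (ι : Type) [Fintype ι] [Nonempty ι] (u s n N p : ℕ) (C : ι → ℕ → ℝ → ℝ) (F : EuclideanSpace ℝ (Fin n) →ₗ[ℝ] (ℝ → ℝ)) (P : Fin (2 ^ u) → EuclideanSpace ℝ (Fin n) →L[ℝ] EuclideanSpace ℝ (Fin n)),
  p ≤ 1 → 1 ≤ u → (∀ i o, NL (C i o)) → (∀ v, VS s (F v)) → (∀ v w, ∫ x, F v x * F w x = inner ℝ v w) → (∀ (j : Fin (2 ^ u)) (v : EuclideanSpace ℝ (Fin n)), F (P j v) = (cell u (j : ℕ)).indicator (F v)) →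
  ∃ X : ι → Fin (2 ^ (u - 1)) → Fin N → EuclideanSpace ℝ (Fin n) →L[ℝ] MeasureTheory.Lp ℝ 2 (volume : Measure ℝ),
    (∀ i z o v, (X i z o v : ℝ → ℝ) =ᵐ[volume] (cell u ((2 * (z : ℕ) + p : ℕ) : ℤ)).indicator (fun x => F v (C i o x))) ∧
    (∀ i z o, ‖X i z o‖ ≤ 11 / 10) ∧ (∀ i i' z z' o o', z ≠ z' → ∀ v w, inner ℝ (X i z o v) (X i' z' o' w) = 0) ∧
    ∀ i z o j, ¬ tch u p N C i z j → (X i z o).comp (P j) = 0

/-- **gGPA** (LONG, helper41). uses: `DH5.GAP_stmt`, gFNC, gL2T, gVSP, gVPR, gCNT, gOPX.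
Proof. `D = 2^(s+2)`, `t = s`, `J = Fin (2^u)`, `Z = Fin (2^(u-1))`, `D (#Z + #J) ≤ 2^(s+2) 2^(u+1) ≤ 4^s`. For `ω` outside the exceptional set of `DH5.GAP_stmt` and `f = F v`: `Tp f` is the class `(#ι)⁻¹ Σ_e X_e (ω_e) v = (#ι)⁻¹ Σ_e (X_e (ω_e) - avE X_e) v + (#ι)⁻¹ Σ_e avE X_e v`; the second term is the function `1_(union of the cells) · average over i of (1/N) Σ_o f (C i o x)`
whose norm is `≤ lam ‖f‖` (gL2T (2) and the hypothesis). -/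
def gGPA_stmt : Prop := ∃ K₀ : ℝ, 1 ≤ K₀ ∧ ∀ (ι : Type) [Fintype ι] [Nonempty ι] (u s N p : ℕ) (C : ι → ℕ → ℝ → ℝ) (β k lam : ℝ), p ≤ 1 → 1 ≤ N → u + 4 ≤ s → 7 ≤ u → (∀ i o, NL (C i o)) →
  (∀ i, ∀ o < N, ∀ o' < N, ∀ x, |C i o x - C i o' x| ≤ 1 / (20 * 2 ^ u)) → 0 < β → β ≤ 1 → 0 ≤ k → 0 ≤ lam →
  (∀ i f, VS s f → nsq (fun x => (∑ o ∈ Finset.range N, f (C i o x)) / N) ≤ lam ^ 2 * nsq f) →
  (∀ (S : Finset (Fin (2 ^ (u - 1)))) (T : Finset (Fin (2 ^ u))), (S.card + T.card : ℝ) < k →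
    (Set.ncard {e : ι × Fin (2 ^ (u - 1)) × Fin (2 ^ u) | e.2.1 ∈ S ∧ e.2.2 ∈ T ∧ tch u p N C e.1 e.2.1 e.2.2} : ℝ) ≤ β * Fintype.card ι * √((S.card : ℝ) * T.card)) →
  K₀ * Real.log (Fintype.card ι + 1) ≤ β ^ 2 * Fintype.card ι → K₀ * s * Real.log (2 / β) ≤ β ^ 2 * Fintype.card ι * k →
  (Set.ncard {ω : ι × Fin (2 ^ (u - 1)) → Fin N | ∃ f, VS s f ∧ (K₀ * β * Real.log (2 / β) + lam) ^ 2 * nsq f < nsq (Tp u p N C ω f)} : ℝ) ≤ (1 / 2) ^ (4 * s) * Nat.card (ι × Fin (2 ^ (u - 1)) → Fin N)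

/-- **gCND** (short/medium). Freezing coordinates.
Proof. Count pairs `(ω₀, ω)` with `bad (extend e ω ω₀)`: at most `#(A → O) ε #(B → O)` by hypothesis; the map `(ω₀, ω) ↦ extend e ω ω₀` is onto and each fibre has `#(B → O)` elements (`ω` is determined, `ω₀` is free on the range of `e`), so the number is `#(B → O) #bad`. Divide (`#(B → O) = 0` only if `O` is empty and `B`, hence `A`, is nonempty; then everything is `0`).
(Alternative: `A ≃ B ⊕ (complement of the range)`, `Equiv.sumArrowEquivProdArrow`.) -/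
def gCND_stmt : Prop := ∀ (A B O : Type) [Fintype A] [Fintype B] [Fintype O] (e : B → A), Function.Injective e → ∀ (bad : (A → O) → Prop) (ε : ℝ), 0 ≤ ε →
  (∀ ω₀ : A → O, (Set.ncard {ω : B → O | bad (Function.extend e ω ω₀)} : ℝ) ≤ ε * Nat.card (B → O)) → (Set.ncard {ω : A → O | bad ω} : ℝ) ≤ ε * Nat.card (A → O)

/-! ## Digits on a cell -/

/-- **gWDL** (short). On the cell `2z+p` the digits of parity `p` act only by their own digit.
Proof. `y = 2^u x - (2z+p) ∈ [0,1)`. A term `l` of parity `p`, `l ≠ 2z+p`, has `2^u x - l ∉ (-1,2)`, so `β = 0`; `l = 2z+p` has `β = 1`. -/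
def gWDL_stmt : Prop := ∀ β : ℝ → ℝ, BUMP β → ∀ (u N p z : ℕ) (τ : ℝ) (ω : ℕ → ℕ), p ≤ 1 → 2 * z + p ∈ Finset.Ico (2 ^ (u - 3) + 2) (7 * 2 ^ (u - 3) - 2) → ∀ x ∈ cell u ((2 * z + p : ℕ) : ℤ),
  Wd β u N τ ω x = τ * ((ω (2 * z + p) : ℝ) / N) + Wd β u N τ (fun l => if l % 2 = p then 0 else ω l) x

/-- **gWDB** (short/medium). Bounds of the digit shift.
Proof. At a point at most `3` terms are nonzero (`l` with `2^u x - l ∈ (-1,2)`), each in `[0,1]`; for two points at most `6` terms, `|β a - β b| ≤ K' |a - b|` (`β` is `C^1` with compact support). -/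
def gWDB_stmt : Prop := ∀ β : ℝ → ℝ, BUMP β → ∃ K : ℝ, 1 ≤ K ∧ ∀ (u N : ℕ) (τ : ℝ) (ω : ℕ → ℕ), 0 ≤ τ → 1 ≤ N → (∀ l, ω l ≤ N) →
  ∀ x y, |Wd β u N τ ω x| ≤ 3 * τ ∧ |Wd β u N τ ω x - Wd β u N τ ω y| ≤ K * τ * 2 ^ u * |x - y|

/-- **gNUM** (short/medium). Numbers. Proof. `s_t = sj (ρ^2) t ≥ ρ^2`, `s_(t+1) ≤ (5/4) s_t`; `bu = ⌊s_t/4⌋` (`t ≥ 1`), `⌊(ρ^2 - w0)/4⌋` (`t = 0`), so `4 bu ≤ s_t`, `4 bu ≥ s_t - w0 - 3`, and `ρ` is large compared with `w0`, `R`. -/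
def gNUM_stmt : Prop := ∀ w0 R : ℕ, ∃ ρ0 : ℕ, ∀ ρ : ℕ, ρ0 ≤ ρ → R ≤ ρ ∧ ∀ t φ : ℕ, φ < 2 ^ w0 → ρ ≤ bu w0 (ρ ^ 2) t ∧ 4 * bu w0 (ρ ^ 2) t ≤ amp w0 (ρ ^ 2) t φ ∧
  R ≤ amp w0 (ρ ^ 2) t φ ∧ sj (ρ ^ 2) (t + 1) + 3 * w0 * 2 ^ w0 ≤ 6 * bu w0 (ρ ^ 2) t ∧ sj (ρ ^ 2) (t + 1) + 3 * w0 * 2 ^ w0 + 2 * w0 + 1 ≤ amp w0 (ρ ^ 2) t φ + sj (ρ ^ 2) (t + 1)

/-- **gFAM** (short). Size of the families. Proof. `#{i < q : i % m = φ}` is `⌊(q - φ - 1)/m⌋ + 1` (`Nat.count_modEq_card` or an injection `k ↦ m k + φ`, `k < q/m`); `q/m` is an integer here (`m = 2^w0` divides `q`) or use the floor: `⌊q/m⌋ ≤ # ≤ ⌊q/m⌋ + 1`. -/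
def gFAM_stmt : Prop := ∀ q m φ : ℕ, 1 ≤ m → φ < m → q / m ≤ (fam q m φ).card ∧ (fam q m φ).card ≤ q / m + 1

/-- **gBGAP** (LONG, helper41). The gap of one family at one level, with large probability. uses: gGPA, gSCT, gMEA, gWDL, gWDB, gNUM, gFAM, gCND, gNIB, gFNC. -/
def gBGAP_stmt : Prop := ∀ β : ℝ → ℝ, BUMP β → ∃ (K : ℝ) (wK : ℕ), 1 ≤ K ∧ ∀ w0 : ℕ, wK ≤ w0 → ∃ ρ0 : ℕ, ∀ ρ : ℕ, ρ0 ≤ ρ → ∀ (t : ℕ) (P E : ℕ → DD), (∀ i, Sz (P i) (1 / 1000) ∧ Sz (E i) (1 / 1000)) →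
  (∀ k : ℕ, 2 * k * ρ ^ 3 ≤ bu w0 (ρ ^ 2) t → SPR (ρ ^ 4) (fun i => P i * E i) (bu w0 (ρ ^ 2) t) k (1 / 2 ^ (6 * w0)) 4) →
  ∀ φ < 2 ^ w0, ∀ s : ℕ, amp w0 (ρ ^ 2) t φ + w0 ≤ s → s ≤ sj (ρ ^ 2) (t + 1) + 3 * w0 * 2 ^ w0 →
  (Set.ncard {ω : Om (ρ ^ 4) (bu w0 (ρ ^ 2) t) (2 ^ sj (ρ ^ 2) (t + 1)) | ∃ c : ℕ → DD, (∀ i x, ev (c i) x = ev (P i) (ev (E i) x +
      Wd β (bu w0 (ρ ^ 2) t) (2 ^ sj (ρ ^ 2) (t + 1)) (1 / 2 ^ amp w0 (ρ ^ 2) t (i % 2 ^ w0)) (dg ω i) x)) ∧ ¬ FG (ρ ^ 4) (2 ^ w0) φ c s (K / 2 ^ w0)} : ℝ) ≤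
    (1 / 2) ^ (2 * s) * Nat.card (Om (ρ ^ 4) (bu w0 (ρ ^ 2) t) (2 ^ sj (ρ ^ 2) (t + 1)))

end Pool.Agent.helper90.DH
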