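import Pool.Agent.helper41.G5.SpecG

/-! # d2:gBG1 (MP_5823cb): freezing the digits of one parity (part of gBGAP). -/

set_option autoImplicit false

open Filter Topology MeasureTheory

namespace Pool.Agent.helper90.DH

open Pool.Agent.helper64.D2

/-- The digits as a function of natural numbers. -/
def gdg {q L N : ℕ} (w : Fin q × Fin L → Fin N) (i l : ℕ) : ℕ := if h : i < q ∧ l < L then (w (⟨i, h.1⟩, ⟨l, h.2⟩) : ℕ) else 0

theorem gdg_le {q L N : ℕ} (w : Fin q × Fin L → Fin N) (i l : ℕ) : gdg w i l ≤ N := by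
  unfold gdg
  split_ifs with h
  · exact (w _).2.le
  · exact Nat.zero_le _

/-- The embedding of the coordinates of parity `p` of the labels in `L`. -/
def gemb {q u : ℕ} (L : Finset ℕ) (hL : L ⊆ Finset.range q) (p : ℕ) (hp : p ≤ 1) (hu : 1 ≤ u) (e : L × Fin (2 ^ (u - 1))) : Fin q × Fin (2 ^ u) :=
  (⟨e.1, Finset.mem_range.1 (hL e.1.2)⟩, ⟨2 * (e.2 : ℕ) + p, by
    have h1 := e.2.2
    have h2 : 2 ^ u = 2 * 2 ^ (u - 1) := by
      rw [← pow_succ']
      congr 1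
      omega
    omega⟩)

theorem gemb_inj {q u : ℕ} (L : Finset ℕ) (hL : L ⊆ Finset.range q) (p : ℕ) (hp : p ≤ 1) (hu : 1 ≤ u) : Function.Injective (gemb (q := q) (u := u) L hL p hp hu) := by
  rintro ⟨i, z⟩ ⟨i', z'⟩ h
  unfold gemb at h
  simp only [Prod.mk.injEq, Fin.mk.injEq] at h
  obtain ⟨h1, h2⟩ := h
  have h3 : i = i' := Subtype.ext h1
  have h4 : z = z' := Fin.ext (by omega)
  rw [h3, h4]

theorem gdg_ext_same {q u N : ℕ} (L : Finset ℕ) (hL : L ⊆ Finset.range q) (p : ℕ) (hp : p ≤ 1) (hu : 1 ≤ u) (ω₀ : Fin q × Fin (2 ^ u) → Fin N) (ω : L × Fin (2 ^ (u - 1)) → Fin N)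
    (i : L) (z : Fin (2 ^ (u - 1))) : gdg (Function.extend (gemb L hL p hp hu) ω ω₀) i (2 * (z : ℕ) + p) = (ω (i, z) : ℕ) := by
  have h1 : (i : ℕ) < q := Finset.mem_range.1 (hL i.2)
  have h2 : 2 * (z : ℕ) + p < 2 ^ u := by
    have h1 := z.2
    have h2 : 2 ^ u = 2 * 2 ^ (u - 1) := by
      rw [← pow_succ']
      congr 1
      omega
    omega
  unfold gdg
  rw [dif_pos ⟨h1, h2⟩]
  have h3 : ((⟨i, h1⟩, ⟨2 * (z : ℕ) + p, h2⟩) : Fin q × Fin (2 ^ u)) = gemb L hL p hp hu (i, z) := rfl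
  rw [h3, (gemb_inj L hL p hp hu).extend_apply]

theorem gdg_ext_other {q u N : ℕ} (L : Finset ℕ) (hL : L ⊆ Finset.range q) (p : ℕ) (hp : p ≤ 1) (hu : 1 ≤ u) (ω₀ : Fin q × Fin (2 ^ u) → Fin N) (ω : L × Fin (2 ^ (u - 1)) → Fin N)
    (i l : ℕ) (hl : ¬ l % 2 = p) : gdg (Function.extend (gemb L hL p hp hu) ω ω₀) i l = gdg ω₀ i l := by
  unfold gdg
  split_ifs with h
  · rw [Function.extend_apply']
    rintro ⟨⟨a, z⟩, ha⟩
    unfold gemb at ha
    simp only [Prod.mk.injEq, Fin.mk.injEq] at ha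
    apply hl
    rw [← ha.2]
    omega
  · rfl

open Classical in
/-- The part of parity `p` of the average over the labels of `L`. -/
noncomputable def gTq (β : ℝ → ℝ) (q u p N : ℕ) (L : Finset ℕ) (P E : ℕ → DD) (τ : ℝ) (w : Fin q × Fin (2 ^ u) → Fin N) (f : ℝ → ℝ) (x : ℝ) : ℝ :=
  ∑ z : Fin (2 ^ (u - 1)), if x ∈ cell u ((2 * (z : ℕ) + p : ℕ) : ℤ) then (∑ i ∈ L, f (ev (P i) (ev (E i) x + Wd β u N τ (gdg w i) x))) / L.card else 0

/-- The maps with frozen digits of the other parity. -/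
noncomputable def gCf (β : ℝ → ℝ) (q u p N : ℕ) (L : Finset ℕ) (P E : ℕ → DD) (τ : ℝ) (ω₀ : Fin q × Fin (2 ^ u) → Fin N) (i : L) (o : ℕ) (x : ℝ) : ℝ :=
  ev (P i) (ev (E i) x + Wd β u N τ (fun l => if l % 2 = p then 0 else gdg ω₀ i l) x + τ * ((o : ℝ) / N))

/-- far from the middle nothing happens -/
theorem gBG1_far (u : ℕ) (hu : 7 ≤ u) (k : ℕ) (hk : k ∉ Finset.Ico (2 ^ (u - 3) + 2) (7 * 2 ^ (u - 3) - 2)) (x y : ℝ) (hx : x ∈ cell u ((k : ℕ) : ℤ)) (hy : |y - x| ≤ 1 / 100) (f : ℝ → ℝ) (hf : Su f) : f y = 0 := by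
  apply hf
  intro hy2
  have hp : (0 : ℝ) < 2 ^ u := by positivity
  simp only [cell, Set.mem_Ico] at hx
  have h1 := (div_le_iff₀ hp).1 hx.1
  have h2 := (lt_div_iff₀ hp).1 hx.2
  have h3 := abs_le.1 hy
  have h8 : (2 : ℝ) ^ u = 8 * 2 ^ (u - 3) := by
    have : u = (u - 3) + 3 := by omega
    rw [this, pow_add]
    norm_num
    ring
  have h16 : (16 : ℝ) ≤ 2 ^ (u - 3) := by
    calc (16 : ℝ) = 2 ^ 4 := by norm_num
      _ ≤ 2 ^ (u - 3) := pow_le_pow_right₀ (by norm_num) (by omega)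
  rw [Finset.mem_Ico, not_and_or, not_le, not_lt] at hk
  push_cast at h1 h2
  rcases hk with hk | hk
  · have h4 : (k : ℝ) + 1 ≤ 2 ^ (u - 3) + 2 := by exact_mod_cast hk
    have h5 := hy2.1
    have h6 : (19 / 100 : ℝ) ≤ x := by linarith
    nlinarith
  · have h4 : (7 * 2 ^ (u - 3) : ℝ) ≤ k + 2 := by
      have : 7 * 2 ^ (u - 3) ≤ k + 2 := by omega
      exact_mod_cast this
    have h5 := hy2.2
    have h6 : x ≤ (81 / 100 : ℝ) := by linarith
    nlinarith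

theorem gBG1_T (hWDL : gWDL_stmt) (β : ℝ → ℝ) (hβ : BUMP β) (q u p N : ℕ) (L : Finset ℕ) (hL : L ⊆ Finset.range q) (hp : p ≤ 1) (hu : 7 ≤ u) (P E : ℕ → DD) (τ : ℝ) (ω₀ : Fin q × Fin (2 ^ u) → Fin N)
    (ω : L × Fin (2 ^ (u - 1)) → Fin N) (f : ℝ → ℝ) (hf : Su f)
    (hnear : ∀ (w : ℕ → ℕ → ℕ), (∀ i l, w i l ≤ N) → ∀ i x, ∀ o ≤ N, |ev (P i) (ev (E i) x + Wd β u N τ (w i) x + τ * ((o : ℝ) / N)) - x| ≤ 1 / 100) :
    gTq β q u p N L P E τ (Function.extend (gemb L hL p hp (by omega)) ω ω₀) f = Tp u p N (gCf β q u p N L P E τ ω₀) ω f := by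
  classical
  funext x
  unfold gTq Tp
  apply Finset.sum_congr rfl
  intro z _
  by_cases hx : x ∈ cell u ((2 * (z : ℕ) + p : ℕ) : ℤ)
  · rw [if_pos hx, if_pos hx, Fintype.card_coe]
    congr 1
    rw [← Finset.sum_coe_sort L]
    apply Finset.sum_congr rfl
    intro i _
    unfold gCf
    by_cases hz : 2 * (z : ℕ) + p ∈ Finset.Ico (2 ^ (u - 3) + 2) (7 * 2 ^ (u - 3) - 2)
    · rw [hWDL β hβ u N p z τ _ hp hz x hx, gdg_ext_same]
      have h1 : (fun l => if l % 2 = p then 0 else gdg (Function.extend (gemb L hL p hp (by omega : 1 ≤ u)) ω ω₀) (i : ℕ) l) = (fun l => if l % 2 = p then 0 else gdg ω₀ (i : ℕ) l) := by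
        funext l
        split_ifs with h
        · rfl
        · exact gdg_ext_other L hL p hp (by omega) ω₀ ω i l h
      rw [h1]
      congr 2
      ring
    · have h1 := hnear (fun i l => gdg (Function.extend (gemb L hL p hp (by omega : 1 ≤ u)) ω ω₀) i l) (fun i l => gdg_le _ _ _) i x 0 (Nat.zero_le _)
      have h2 := hnear (fun i l => if l % 2 = p then 0 else gdg ω₀ i l) (fun i l => by
        show (if l % 2 = p then 0 else gdg ω₀ i l) ≤ N
        split_ifs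
        · exact Nat.zero_le _
        · exact gdg_le _ _ _) i x (ω (i, z)) (ω (i, z)).2.le
      have h3 := gBG1_far u hu (2 * (z : ℕ) + p) hz x _ hx h2 f hf
      have h4 := gBG1_far u hu (2 * (z : ℕ) + p) hz x _ hx h1 f hf
      rw [h3]
      simp only [Nat.cast_zero, zero_div, mul_zero, add_zero] at h4
      exact h4
  · rw [if_neg hx, if_neg hx]

end Pool.Agent.helper90.DH
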