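import Pool.Agent.helper41.G5.gBG1

/-! # d2:gBG2 (MP_5823cb): the average of a family from its two parities (part of gBGAP). -/

set_option autoImplicit false

open Filter Topology MeasureTheory

namespace Pool.Agent.helper90.DH

open Pool.Agent.helper64.D2

/-- The average over the labels of `L`. -/
noncomputable def gTT (β : ℝ → ℝ) (q u N : ℕ) (L : Finset ℕ) (P E : ℕ → DD) (τ : ℝ) (w : Fin q × Fin (2 ^ u) → Fin N) (f : ℝ → ℝ) (x : ℝ) : ℝ :=
  (∑ i ∈ L, f (ev (P i) (ev (E i) x + Wd β u N τ (gdg w i) x))) / L.card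

theorem gBG2_cell (u : ℕ) (k k' : ℤ) (x : ℝ) (h : x ∈ cell u k) (h' : x ∈ cell u k') : k = k' := by
  have hp : (0 : ℝ) < 2 ^ u := by positivity
  simp only [cell, Set.mem_Ico] at h h'
  have h1 := (div_le_iff₀ hp).1 h.1
  have h2 := (lt_div_iff₀ hp).1 h.2
  have h3 := (div_le_iff₀ hp).1 h'.1
  have h4 := (lt_div_iff₀ hp).1 h'.2
  have h5 : (k : ℝ) < k' + 1 := by linarith
  have h6 : (k' : ℝ) < k + 1 := by linarith
  have h7 : k < k' + 1 := by exact_mod_cast h5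
  have h8 : k' < k + 1 := by exact_mod_cast h6
  omega

/-- the value of the parity part -/
theorem gBG2_val (β : ℝ → ℝ) (q u p N : ℕ) (L : Finset ℕ) (P E : ℕ → DD) (τ : ℝ) (w : Fin q × Fin (2 ^ u) → Fin N) (f : ℝ → ℝ) (x : ℝ) (z : Fin (2 ^ (u - 1)))
    (hx : x ∈ cell u ((2 * (z : ℕ) + p : ℕ) : ℤ)) : gTq β q u p N L P E τ w f x = gTT β q u N L P E τ w f x := by
  classical
  unfold gTq
  rw [Finset.sum_eq_single z]
  · rw [if_pos hx]; rfl
  · intro z' _ hz'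
    rw [if_neg]
    intro h
    apply hz'
    have := gBG2_cell u _ _ x h hx
    apply Fin.ext
    omega
  · intro h; exact absurd (Finset.mem_univ z) h

theorem gBG2_zero (β : ℝ → ℝ) (q u p N : ℕ) (L : Finset ℕ) (P E : ℕ → DD) (τ : ℝ) (w : Fin q × Fin (2 ^ u) → Fin N) (f : ℝ → ℝ) (x : ℝ)
    (hx : ∀ z : Fin (2 ^ (u - 1)), x ∉ cell u ((2 * (z : ℕ) + p : ℕ) : ℤ)) : gTq β q u p N L P E τ w f x = 0 := by
  classical
  unfold gTq
  apply Finset.sum_eq_zero
  intro z _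
  rw [if_neg (hx z)]

/-- pointwise -/
theorem gBG2_pt (β : ℝ → ℝ) (q u N : ℕ) (hu : 1 ≤ u) (L : Finset ℕ) (P E : ℕ → DD) (τ : ℝ) (w : Fin q × Fin (2 ^ u) → Fin N) (f : ℝ → ℝ)
    (hfar : ∀ x, x ∉ Set.Ico (0 : ℝ) 1 → gTT β q u N L P E τ w f x = 0) (x : ℝ) :
    gTT β q u N L P E τ w f x ^ 2 = gTq β q u 0 N L P E τ w f x ^ 2 + gTq β q u 1 N L P E τ w f x ^ 2 := by
  by_cases hx : x ∈ Set.Ico (0 : ℝ) 1
  · have hp : (0 : ℝ) < 2 ^ u := by positivity
    have h0 : 0 ≤ 2 ^ u * x := by have := hx.1; positivity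
    set k : ℕ := ⌊2 ^ u * x⌋₊ with hk
    have h1 : (k : ℝ) ≤ 2 ^ u * x := Nat.floor_le h0
    have h2 : 2 ^ u * x < k + 1 := Nat.lt_floor_add_one _
    have h3 : k < 2 ^ u := by
      have : (k : ℝ) < 2 ^ u := by
        have := hx.2
        nlinarith
      exact_mod_cast this
    have hc : x ∈ cell u ((k : ℕ) : ℤ) := by
      simp only [cell, Set.mem_Ico]
      push_cast
      exact ⟨(div_le_iff₀ hp).2 (by linarith), (lt_div_iff₀ hp).2 (by linarith)⟩
    have h4 : 2 ^ u = 2 * 2 ^ (u - 1) := by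
      rw [← pow_succ']
      congr 1
      omega
    have hz : k / 2 < 2 ^ (u - 1) := by omega
    rcases Nat.mod_two_eq_zero_or_one k with h5 | h5
    · have h6 : 2 * ((⟨k / 2, hz⟩ : Fin (2 ^ (u - 1))) : ℕ) + 0 = k := by simp only; omega
      have h7 : x ∈ cell u ((2 * ((⟨k / 2, hz⟩ : Fin (2 ^ (u - 1))) : ℕ) + 0 : ℕ) : ℤ) := by rw [h6]; exact hc
      rw [gBG2_val β q u 0 N L P E τ w f x ⟨k / 2, hz⟩ h7, gBG2_zero β q u 1 N L P E τ w f x]
      · ring
      · intro z hz'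
        have := gBG2_cell u _ _ x hz' hc
        omega
    · have h6 : 2 * ((⟨k / 2, hz⟩ : Fin (2 ^ (u - 1))) : ℕ) + 1 = k := by simp only; omega
      have h7 : x ∈ cell u ((2 * ((⟨k / 2, hz⟩ : Fin (2 ^ (u - 1))) : ℕ) + 1 : ℕ) : ℤ) := by rw [h6]; exact hc
      rw [gBG2_val β q u 1 N L P E τ w f x ⟨k / 2, hz⟩ h7, gBG2_zero β q u 0 N L P E τ w f x]
      · ring
      · intro z hz'
        have := gBG2_cell u _ _ x hz' hc
        omega
  · have hout : ∀ p ≤ 1, ∀ z : Fin (2 ^ (u - 1)), x ∉ cell u ((2 * (z : ℕ) + p : ℕ) : ℤ) := by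
      intro p hp z hz
      apply hx
      have hp0 : (0 : ℝ) < 2 ^ u := by positivity
      simp only [cell, Set.mem_Ico] at hz
      have h1 := (div_le_iff₀ hp0).1 hz.1
      have h2 := (lt_div_iff₀ hp0).1 hz.2
      have h4 : 2 ^ u = 2 * 2 ^ (u - 1) := by
        rw [← pow_succ']
        congr 1
        omega
      have h5 : 2 * (z : ℕ) + p + 1 ≤ 2 ^ u := by
        have := z.2
        omega
      have h6 : ((((2 * (z : ℕ) + p : ℕ) : ℤ) : ℝ) + 1) ≤ 2 ^ u := by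
        have : (((2 * (z : ℕ) + p + 1 : ℕ) : ℝ)) ≤ ((2 ^ u : ℕ) : ℝ) := by exact_mod_cast h5
        push_cast at this ⊢
        linarith
      have h7 : (0 : ℝ) ≤ (((2 * (z : ℕ) + p : ℕ) : ℤ) : ℝ) := by positivity
      constructor
      · by_contra hneg
        push Not at hneg
        nlinarith
      · by_contra hneg
        push Not at hneg
        nlinarith
    rw [hfar x hx, gBG2_zero β q u 0 N L P E τ w f x (hout 0 (by norm_num)), gBG2_zero β q u 1 N L P E τ w f x (hout 1 (by norm_num))]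
    ring

theorem gBG2_mem (β : ℝ → ℝ) (q u p N : ℕ) (L : Finset ℕ) (P E : ℕ → DD) (τ : ℝ) (w : Fin q × Fin (2 ^ u) → Fin N) (f : ℝ → ℝ)
    (hT : MemLp (gTT β q u N L P E τ w f) 2 volume) : MemLp (gTq β q u p N L P E τ w f) 2 volume := by
  classical
  have h1 : gTq β q u p N L P E τ w f = fun x => ∑ z : Fin (2 ^ (u - 1)), (cell u ((2 * (z : ℕ) + p : ℕ) : ℤ)).indicator (gTT β q u N L P E τ w f) x := by
    funext x
    unfold gTq
    apply Finset.sum_congr rfl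
    intro z _
    by_cases hx : x ∈ cell u ((2 * (z : ℕ) + p : ℕ) : ℤ)
    · rw [if_pos hx, Set.indicator_of_mem hx]; rfl
    · rw [if_neg hx, Set.indicator_of_notMem hx]
  rw [h1]
  apply memLp_finset_sum
  intro z _
  exact hT.indicator measurableSet_Ico

theorem gBG2_TT (hFNC : gFNC_stmt) (β : ℝ → ℝ) (q u s N : ℕ) (L : Finset ℕ) (P E : ℕ → DD) (τ : ℝ) (w : Fin q × Fin (2 ^ u) → Fin N) (f : ℝ → ℝ) (hf : VS s f)
    (hNL : ∀ i, NL (fun x => ev (P i) (ev (E i) x + Wd β u N τ (gdg w i) x))) : MemLp (gTT β q u N L P E τ w f) 2 volume := by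
  have h3 : MemLp (fun x => ∑ i ∈ L, f (ev (P i) (ev (E i) x + Wd β u N τ (gdg w i) x))) 2 volume := by
    apply memLp_finset_sum
    intro i _
    exact (hFNC (s + 1) f _ hf.1 hf.2.1 (hNL i)).2.2.2.2.2.1
  have h4 := h3.const_mul ((L.card : ℝ)⁻¹)
  refine h4.congr_norm ?_ ?_
  · exact (h3.aestronglyMeasurable.mul_const _)
  · exact Filter.Eventually.of_forall (fun x => by unfold gTT; rw [div_eq_inv_mul])

theorem gBG2 (hFNC : gFNC_stmt) (β : ℝ → ℝ) (q u s N : ℕ) (hu : 1 ≤ u) (L : Finset ℕ) (P E : ℕ → DD) (τ : ℝ) (w : Fin q × Fin (2 ^ u) → Fin N) (f : ℝ → ℝ) (hf : VS s f)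
    (hNL : ∀ i, NL (fun x => ev (P i) (ev (E i) x + Wd β u N τ (gdg w i) x)))
    (hnear : ∀ i x, |ev (P i) (ev (E i) x + Wd β u N τ (gdg w i) x) - x| ≤ 1 / 100) :
    nsq (gTT β q u N L P E τ w f) = nsq (gTq β q u 0 N L P E τ w f) + nsq (gTq β q u 1 N L P E τ w f) := by
  have hT := gBG2_TT hFNC β q u s N L P E τ w f hf hNL
  have h0 := gBG2_mem β q u 0 N L P E τ w f hT
  have h1 := gBG2_mem β q u 1 N L P E τ w f hT
  have hfar : ∀ x, x ∉ Set.Ico (0 : ℝ) 1 → gTT β q u N L P E τ w f x = 0 := by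
    intro x hx
    unfold gTT
    rw [Finset.sum_eq_zero, zero_div]
    intro i _
    apply hf.2.1
    intro h2
    have h3 := abs_le.1 (hnear i x)
    apply hx
    exact ⟨by linarith [h2.1], by linarith [h2.2]⟩
  unfold nsq
  rw [← integral_add h0.integrable_sq h1.integrable_sq]
  apply integral_congr_ae
  exact Filter.Eventually.of_forall (fun x => gBG2_pt β q u N hu L P E τ w f hfar x)

end Pool.Agent.helper90.DH
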