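import Pool.Agent.helper41.G5.gBG2

/-! # d2:gBG3 (MP_5823cb): probability of the failure of the gap of a family (part of gBGAP). -/

set_option autoImplicit false

open Filter Topology MeasureTheory

namespace Pool.Agent.helper90.DH

open Pool.Agent.helper64.D2

theorem gBG3_lip (hNIB : gNIB_stmt) (g : DD) (hg : Sz g (1 / 1000)) (x y : ℝ) : |ev g x - ev g y| ≤ 1001 / 1000 * |x - y| := by
  have h := (hNIB g (1 / 1000) (by norm_num) hg).2.2 x y
  have h1 : |ev g x - ev g y| ≤ |(ev g x - ev g y) - (x - y)| + |x - y| := by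
    have := abs_add_le ((ev g x - ev g y) - (x - y)) (x - y)
    rwa [sub_add_cancel] at this
  linarith

/-- the base map is bi-Lipschitz with constants close to one -/
theorem gBG3_B (hNIB : gNIB_stmt) (e : DD) (he : Sz e (1 / 1000)) (W : ℝ → ℝ) (hW : ∀ x y, |W x - W y| ≤ 1 / 1000 * |x - y|) (x y : ℝ) (hxy : x ≤ y) :
    998 / 1000 * (y - x) ≤ (ev e y + W y) - (ev e x + W x) ∧ (ev e y + W y) - (ev e x + W x) ≤ 1002 / 1000 * (y - x) := by
  have h := (hNIB e (1 / 1000) (by norm_num) he).2.2 y x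
  have h2 := hW y x
  rw [abs_of_nonneg (by linarith : 0 ≤ y - x)] at h h2
  have h3 := abs_le.1 h
  have h4 := abs_le.1 h2
  constructor <;> linarith [h3.1, h3.2, h4.1, h4.2]

theorem gBG3_NL (hNIB : gNIB_stmt) (g e : DD) (hg : Sz g (1 / 1000)) (he : Sz e (1 / 1000)) (W : ℝ → ℝ) (hW : ∀ x y, |W x - W y| ≤ 1 / 1000 * |x - y|) (c : ℝ) :
    NL (fun x => ev g (ev e x + W x + c)) := by
  intro x y hxy
  have h1 := gBG3_B hNIB e he W hW x y hxy
  have h2 := (hNIB g (1 / 1000) (by norm_num) hg).2.2 (ev e y + W y + c) (ev e x + W x + c)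
  have h3 : (ev e y + W y + c) - (ev e x + W x + c) = (ev e y + W y) - (ev e x + W x) := by ring
  rw [h3] at h2
  have h4 : 0 ≤ (ev e y + W y) - (ev e x + W x) := by
    have : 0 ≤ 998 / 1000 * (y - x) := by
      have : 0 ≤ y - x := by linarith
      positivity
    linarith [h1.1]
  rw [abs_of_nonneg h4] at h2
  have h5 := abs_le.1 h2
  constructor
  · show 9 / 10 * (y - x) ≤ ev g (ev e y + W y + c) - ev g (ev e x + W x + c)
    nlinarith [h5.1, h1.1]
  · show ev g (ev e y + W y + c) - ev g (ev e x + W x + c) ≤ 11 / 10 * (y - x)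
    nlinarith [h5.2, h1.2]

theorem gBG3_NLB (hNIB : gNIB_stmt) (e : DD) (he : Sz e (1 / 1000)) (W : ℝ → ℝ) (hW : ∀ x y, |W x - W y| ≤ 1 / 1000 * |x - y|) : NL (fun x => ev e x + W x) := by
  intro x y hxy
  have h1 := gBG3_B hNIB e he W hW x y hxy
  have : 0 ≤ y - x := by linarith
  constructor
  · show 9 / 10 * (y - x) ≤ (ev e y + W y) - (ev e x + W x)
    linarith [h1.1]
  · show (ev e y + W y) - (ev e x + W x) ≤ 11 / 10 * (y - x)
    linarith [h1.2]

theorem gBG3_near (hNIB : gNIB_stmt) (g e : DD) (hg : Sz g (1 / 1000)) (he : Sz e (1 / 1000)) (r x : ℝ) (hr : |r| ≤ 1 / 1000) : |ev g (ev e x + r) - x| ≤ 1 / 100 := by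
  have h1 := (hNIB g (1 / 1000) (by norm_num) hg).1 (ev e x + r)
  have h2 := (hNIB e (1 / 1000) (by norm_num) he).1 x
  have h3 := abs_le.1 h1
  have h4 := abs_le.1 h2
  have h5 := abs_le.1 hr
  rw [abs_le]
  constructor <;> linarith [h3.1, h3.2, h4.1, h4.2, h5.1, h5.2]

theorem gBG3 (hGPA : gGPA_stmt) (hFNC : gFNC_stmt) (hSCT : gSCT_stmt) (hMEA : gMEA_stmt) (hWDL : gWDL_stmt) (hWDB : gWDB_stmt) (hCND : gCND_stmt) (hNIB : gNIB_stmt) (hSZC : SZC_stmt)
    (β : ℝ → ℝ) (hβ : BUMP β) : ∃ Kb K : ℝ, 1 ≤ Kb ∧ 1 ≤ K ∧ ∀ (q u s N : ℕ) (L : Finset ℕ) (P E : ℕ → DD) (τ th b k lam : ℝ), (∀ i, Sz (P i) (1 / 1000) ∧ Sz (E i) (1 / 1000)) →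
    0 < τ → Kb * τ * 2 ^ u ≤ 1 / 1000 → 7 ≤ u → u + 4 ≤ s → 1 ≤ N → 2 ^ (s + 1) * τ ≤ N → L ⊆ Finset.range q → L.Nonempty → 0 < b → b ≤ 1 → 0 ≤ th → 0 ≤ k → 0 ≤ lam →
    K * (1 / (2 ^ s * τ) ^ 2 + 2 ^ s * τ / N) ≤ lam ^ 2 → 54 * th * q ≤ b ^ 2 * L.card → (∀ k' : ℕ, (k' : ℝ) < k → SPR q (fun i => P i * E i) u k' th 4) →
    K * Real.log (L.card + 1) ≤ b ^ 2 * L.card → K * s * Real.log (2 / b) ≤ b ^ 2 * L.card * k →
    (Set.ncard {w : Fin q × Fin (2 ^ u) → Fin N | ∃ f, VS s f ∧ 2 * (K * b * Real.log (2 / b) + lam) ^ 2 * nsq f < nsq (gTT β q u N L P E τ w f)} : ℝ) ≤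
      2 * (1 / 2) ^ (4 * s) * Nat.card (Fin q × Fin (2 ^ u) → Fin N) := by
  classical
  obtain ⟨K₀, hK₀, hG⟩ := hGPA
  obtain ⟨KM, hKM, hM⟩ := hMEA
  obtain ⟨KW, hKW, hWb⟩ := hWDB β hβ
  refine ⟨100 + KW, K₀ + KM, by linarith, by linarith, ?_⟩
  intro q u s N L P E τ th b k lam hPE hτ hτ2 hu hus hN hNτ hL hLn hb hb1 hth hk hlam hlam2 h54 hspr hlog hKs
  have hpu : (1 : ℝ) ≤ 2 ^ u := one_le_pow₀ (by norm_num)
  have hNr : (1 : ℝ) ≤ N := by exact_mod_cast hN
  have hτu : 0 < τ * 2 ^ u := by positivity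
  have hτ3 : τ * 2 ^ u ≤ 1 / 100000 := by nlinarith
  have hτ4 : τ ≤ 1 / 100000 := by nlinarith
  have hτ5 : KW * τ * 2 ^ u ≤ 1 / 1000 := by nlinarith
  have hLog : 0 < Real.log (2 / b) := Real.log_pos (by rw [lt_div_iff₀ hb]; linarith)
  have hlogL : 0 ≤ Real.log ((L.card : ℝ) + 1) := Real.log_nonneg (by have : (0 : ℝ) ≤ L.card := Nat.cast_nonneg _; linarith)
  haveI : Nonempty L := hLn.coe_sort
  -- bounds for the digit shifts
  have hW1 : ∀ ω : ℕ → ℕ, (∀ l, ω l ≤ N) → ∀ x, |Wd β u N τ ω x| ≤ 3 * τ := fun ω hω x => (hWb u N τ ω hτ.le hN hω x x).1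
  have hW2 : ∀ ω : ℕ → ℕ, (∀ l, ω l ≤ N) → ∀ x y, |Wd β u N τ ω x - Wd β u N τ ω y| ≤ 1 / 1000 * |x - y| := fun ω hω x y =>
    ((hWb u N τ ω hτ.le hN hω x y).2).trans (mul_le_mul_of_nonneg_right hτ5 (abs_nonneg _))
  have hτo : ∀ o : ℕ, o ≤ N → |τ * ((o : ℝ) / N)| ≤ τ := by
    intro o ho
    have h1 : (o : ℝ) / N ≤ 1 := by
      rw [div_le_one (by linarith)]
      exact_mod_cast ho
    have h0 : (0 : ℝ) ≤ (o : ℝ) / N := by positivity
    rw [abs_of_nonneg (by positivity)]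
    nlinarith
  -- one parity
  have hpar : ∀ p ≤ 1, (Set.ncard {w : Fin q × Fin (2 ^ u) → Fin N | ∃ f, VS s f ∧ ((K₀ + KM) * b * Real.log (2 / b) + lam) ^ 2 * nsq f < nsq (gTq β q u p N L P E τ w f)} : ℝ) ≤
      (1 / 2) ^ (4 * s) * Nat.card (Fin q × Fin (2 ^ u) → Fin N) := by
    intro p hp
    apply hCND (Fin q × Fin (2 ^ u)) (L × Fin (2 ^ (u - 1))) (Fin N) (gemb L hL p hp (by omega)) (gemb_inj L hL p hp (by omega))
      (fun w => ∃ f, VS s f ∧ ((K₀ + KM) * b * Real.log (2 / b) + lam) ^ 2 * nsq f < nsq (gTq β q u p N L P E τ w f)) ((1 / 2) ^ (4 * s)) (by positivity)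
    intro ω₀
    have hfz : ∀ i : ℕ, ∀ l, (fun l => if l % 2 = p then 0 else gdg ω₀ i l) l ≤ N := by
      intro i l
      show (if l % 2 = p then 0 else gdg ω₀ i l) ≤ N
      split_ifs
      · exact Nat.zero_le _
      · exact gdg_le _ _ _
    have hNLc : ∀ (i : L) (o : ℕ), NL (gCf β q u p N L P E τ ω₀ i o) := fun i o =>
      gBG3_NL hNIB (P i) (E i) (hPE i).1 (hPE i).2 (Wd β u N τ (fun l => if l % 2 = p then 0 else gdg ω₀ i l)) (hW2 _ (hfz i)) (τ * ((o : ℝ) / N))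
    have h1 := hG L u s N p (gCf β q u p N L P E τ ω₀) b k lam hp hN hus hu hNLc (by
        intro i o ho o' ho' x
        unfold gCf
        refine (gBG3_lip hNIB (P i) (hPE i).1 _ _).trans ?_
        have h2 : ev (E i) x + Wd β u N τ (fun l => if l % 2 = p then 0 else gdg ω₀ i l) x + τ * ((o : ℝ) / N) - (ev (E i) x + Wd β u N τ (fun l => if l % 2 = p then 0 else gdg ω₀ i l) x + τ * ((o' : ℝ) / N)) = τ * ((o : ℝ) / N) - τ * ((o' : ℝ) / N) := by ring
        rw [h2]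
        have h3 := abs_sub (τ * ((o : ℝ) / N)) (τ * ((o' : ℝ) / N))
        have h4 := hτo o ho.le
        have h5 := hτo o' ho'.le
        have h6 : (1 : ℝ) / (20 * 2 ^ u) = (1 / 20) / 2 ^ u := by rw [div_div]
        rw [h6, le_div_iff₀ (by positivity)]
        nlinarith)
      hb hb1 hk hlam (by
        intro i f hf
        have h2 := hM s N τ (P i) (fun x => ev (E i) x + Wd β u N τ (fun l => if l % 2 = p then 0 else gdg ω₀ i l) x) f hN hτ (by linarith) hNτ (hPE i).1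
          (gBG3_NLB hNIB (E i) (hPE i).2 _ (hW2 _ (hfz i))) hf
        refine h2.trans ?_
        apply mul_le_mul_of_nonneg_right _ (integral_nonneg (fun x => sq_nonneg _))
        refine le_trans ?_ hlam2
        apply mul_le_mul_of_nonneg_right (by linarith) (by positivity))
      (by
        rw [Fintype.card_coe]
        have h2 := hSCT q u p N (fun i => P i * E i) L (gCf β q u p N L P E τ ω₀) b k th hu hp hL hLn hb hth h54 (by
            intro i x
            have h3 := hSZC.2.2.1 (P i) (E i) (1 / 1000) (1 / 1000) (hPE i).1 (hPE i).2 (by norm_num) (by norm_num) x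
            refine h3.trans (by norm_num)) hNLc (by
            intro i o ho x
            rw [ev_mul]
            unfold gCf
            refine (gBG3_lip hNIB (P i) (hPE i).1 _ _).trans ?_
            have h2 : ev (E i) x + Wd β u N τ (fun l => if l % 2 = p then 0 else gdg ω₀ i l) x + τ * ((o : ℝ) / N) - ev (E i) x = Wd β u N τ (fun l => if l % 2 = p then 0 else gdg ω₀ i l) x + τ * ((o : ℝ) / N) := by ring
            rw [h2]
            have h3 := abs_add_le (Wd β u N τ (fun l => if l % 2 = p then 0 else gdg ω₀ i l) x) (τ * ((o : ℝ) / N))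
            have h4 := hτo o ho.le
            have h5 := hW1 _ (hfz i) x
            have h6 : (1 : ℝ) / (40 * 2 ^ u) = (1 / 40) / 2 ^ u := by rw [div_div]
            rw [h6, le_div_iff₀ (by positivity)]
            nlinarith) hspr
        rw [Fintype.card_coe] at h2
        exact h2)
      (by
        rw [Fintype.card_coe]
        refine le_trans ?_ hlog
        exact mul_le_mul_of_nonneg_right (by linarith) hlogL)
      (by
        rw [Fintype.card_coe]
        refine le_trans ?_ hKs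
        apply mul_le_mul_of_nonneg_right _ hLog.le
        exact mul_le_mul_of_nonneg_right (by linarith) (Nat.cast_nonneg _))
    refine le_trans ?_ h1
    have h2 : {ω : L × Fin (2 ^ (u - 1)) → Fin N | ∃ f, VS s f ∧ ((K₀ + KM) * b * Real.log (2 / b) + lam) ^ 2 * nsq f < nsq (gTq β q u p N L P E τ (Function.extend (gemb L hL p hp (by omega)) ω ω₀) f)} ⊆
        {ω : L × Fin (2 ^ (u - 1)) → Fin N | ∃ f, VS s f ∧ (K₀ * b * Real.log (2 / b) + lam) ^ 2 * nsq f < nsq (Tp u p N (gCf β q u p N L P E τ ω₀) ω f)} := by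
      intro ω hω
      obtain ⟨f, hf, hlt⟩ := hω
      refine ⟨f, hf, ?_⟩
      rw [gBG1_T hWDL β hβ q u p N L hL hp hu P E τ ω₀ ω f hf.2.1 (by
        intro w hw i x o ho
        rw [add_assoc]
        apply gBG3_near hNIB (P i) (E i) (hPE i).1 (hPE i).2
        have h3 := abs_add_le (Wd β u N τ (w i) x) (τ * ((o : ℝ) / N))
        have h4 := hτo o ho
        have h5 := hW1 (w i) (hw i) x
        linarith)] at hlt
      refine lt_of_le_of_lt ?_ hlt
      apply mul_le_mul_of_nonneg_right _ (integral_nonneg (fun x => sq_nonneg _))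
      apply pow_le_pow_left₀ (by positivity)
      have h7 : K₀ * b * Real.log (2 / b) ≤ (K₀ + KM) * b * Real.log (2 / b) := by
        apply mul_le_mul_of_nonneg_right _ hLog.le
        exact mul_le_mul_of_nonneg_right (by linarith) hb.le
      linarith
    exact_mod_cast Set.ncard_le_ncard h2 (Set.toFinite _)
  -- both parities
  have hsub : {w : Fin q × Fin (2 ^ u) → Fin N | ∃ f, VS s f ∧ 2 * ((K₀ + KM) * b * Real.log (2 / b) + lam) ^ 2 * nsq f < nsq (gTT β q u N L P E τ w f)} ⊆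
      {w : Fin q × Fin (2 ^ u) → Fin N | ∃ f, VS s f ∧ ((K₀ + KM) * b * Real.log (2 / b) + lam) ^ 2 * nsq f < nsq (gTq β q u 0 N L P E τ w f)} ∪
      {w : Fin q × Fin (2 ^ u) → Fin N | ∃ f, VS s f ∧ ((K₀ + KM) * b * Real.log (2 / b) + lam) ^ 2 * nsq f < nsq (gTq β q u 1 N L P E τ w f)} := by
    intro w hw
    obtain ⟨f, hf, hlt⟩ := hw
    have hNLw : ∀ i, NL (fun x => ev (P i) (ev (E i) x + Wd β u N τ (gdg w i) x)) := by
      intro i
      have h1 := gBG3_NL hNIB (P i) (E i) (hPE i).1 (hPE i).2 (Wd β u N τ (gdg w i)) (hW2 _ (gdg_le w i)) 0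
      simpa using h1
    have hnw : ∀ i x, |ev (P i) (ev (E i) x + Wd β u N τ (gdg w i) x) - x| ≤ 1 / 100 := by
      intro i x
      apply gBG3_near hNIB (P i) (E i) (hPE i).1 (hPE i).2
      have h5 := hW1 (gdg w i) (gdg_le w i) x
      linarith
    rw [gBG2 hFNC β q u s N (by omega) L P E τ w f hf hNLw hnw] at hlt
    by_contra hno
    rw [Set.mem_union, not_or] at hno
    have h1 : nsq (gTq β q u 0 N L P E τ w f) ≤ ((K₀ + KM) * b * Real.log (2 / b) + lam) ^ 2 * nsq f := by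
      by_contra h; push Not at h; exact hno.1 ⟨f, hf, h⟩
    have h2 : nsq (gTq β q u 1 N L P E τ w f) ≤ ((K₀ + KM) * b * Real.log (2 / b) + lam) ^ 2 * nsq f := by
      by_contra h; push Not at h; exact hno.2 ⟨f, hf, h⟩
    linarith
  have h1 := (Set.ncard_le_ncard hsub (Set.toFinite _)).trans (Set.ncard_union_le _ _)
  have h2 := hpar 0 (by norm_num)
  have h3 := hpar 1 (by norm_num)
  calc (Set.ncard {w : Fin q × Fin (2 ^ u) → Fin N | ∃ f, VS s f ∧ 2 * ((K₀ + KM) * b * Real.log (2 / b) + lam) ^ 2 * nsq f < nsq (gTT β q u N L P E τ w f)} : ℝ) ≤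
        (Set.ncard {w : Fin q × Fin (2 ^ u) → Fin N | ∃ f, VS s f ∧ ((K₀ + KM) * b * Real.log (2 / b) + lam) ^ 2 * nsq f < nsq (gTq β q u 0 N L P E τ w f)} : ℝ) +
        (Set.ncard {w : Fin q × Fin (2 ^ u) → Fin N | ∃ f, VS s f ∧ ((K₀ + KM) * b * Real.log (2 / b) + lam) ^ 2 * nsq f < nsq (gTq β q u 1 N L P E τ w f)} : ℝ) := by exact_mod_cast h1
    _ ≤ _ := by linarith

end Pool.Agent.helper90.DH
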