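import Pool.Agent.helper41.G5.SpecG

/-! # d2:gGPA (MP_5823cb): the probabilistic estimate of the gap. -/

set_option autoImplicit false

open Filter Topology MeasureTheory

namespace Pool.Agent.helper90.DH

open Pool.Agent.helper64.D2

theorem gGPA_sum {κ : Type} (S : Finset κ) (g : κ → MeasureTheory.Lp ℝ 2 (volume : Measure ℝ)) :
    ((∑ i ∈ S, g i : MeasureTheory.Lp ℝ 2 (volume : Measure ℝ)) : ℝ → ℝ) =ᵐ[volume] fun x => ∑ i ∈ S, (g i : ℝ → ℝ) x := by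
  classical
  induction S using Finset.induction_on with
  | empty =>
    simp only [Finset.sum_empty]
    exact MeasureTheory.Lp.coeFn_zero ℝ 2 volume
  | insert a S ha ih =>
    rw [Finset.sum_insert ha]
    filter_upwards [MeasureTheory.Lp.coeFn_add (g a) (∑ i ∈ S, g i), ih] with x h1 h2
    rw [h1, Pi.add_apply, h2, Finset.sum_insert ha]

theorem gGPA_smul {κ : Type} (r : ℝ) (S : Finset κ) (g : κ → MeasureTheory.Lp ℝ 2 (volume : Measure ℝ)) (h : κ → ℝ → ℝ)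
    (hg : ∀ i ∈ S, (g i : ℝ → ℝ) =ᵐ[volume] h i) :
    ((r • ∑ i ∈ S, g i : MeasureTheory.Lp ℝ 2 (volume : Measure ℝ)) : ℝ → ℝ) =ᵐ[volume] fun x => r * ∑ i ∈ S, h i x := by
  have h2 : ∀ᵐ x ∂(volume : Measure ℝ), ∀ i ∈ S, (g i : ℝ → ℝ) x = h i x := (Finset.eventually_all S).2 hg
  filter_upwards [MeasureTheory.Lp.coeFn_smul r (∑ i ∈ S, g i), gGPA_sum S g, h2] with x h3 h4 h5
  rw [h3, Pi.smul_apply, h4, smul_eq_mul]
  congr 1
  exact Finset.sum_congr rfl (fun i hi => h5 i hi)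

theorem gGPA_norm (g : MeasureTheory.Lp ℝ 2 (volume : Measure ℝ)) (h : ℝ → ℝ) (hg : (g : ℝ → ℝ) =ᵐ[volume] h) : ‖g‖ ^ 2 = nsq h := by
  rw [← real_inner_self_eq_norm_sq, MeasureTheory.L2.inner_def]
  unfold nsq
  apply integral_congr_ae
  filter_upwards [hg] with x hx
  rw [hx]
  simp [pow_two]

theorem gGPA_cell (u p : ℕ) (x : ℝ) (z z' : Fin (2 ^ (u - 1))) (h : x ∈ cell u ((2 * (z : ℕ) + p : ℕ) : ℤ)) (h' : x ∈ cell u ((2 * (z' : ℕ) + p : ℕ) : ℤ)) : z = z' := by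
  have hp : (0 : ℝ) < 2 ^ u := by positivity
  simp only [cell, Set.mem_Ico] at h h'
  have h1 := (div_le_iff₀ hp).1 h.1
  have h2 := (lt_div_iff₀ hp).1 h.2
  have h3 := (div_le_iff₀ hp).1 h'.1
  have h4 := (lt_div_iff₀ hp).1 h'.2
  have h5 : (((2 * (z : ℕ) + p : ℕ) : ℤ) : ℝ) < (((2 * (z' : ℕ) + p : ℕ) : ℤ) : ℝ) + 1 := by linarith
  have h6 : (((2 * (z' : ℕ) + p : ℕ) : ℤ) : ℝ) < (((2 * (z : ℕ) + p : ℕ) : ℤ) : ℝ) + 1 := by linarith
  have h7 : ((2 * (z : ℕ) + p : ℕ) : ℤ) < ((2 * (z' : ℕ) + p : ℕ) : ℤ) + 1 := by exact_mod_cast h5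
  have h8 : ((2 * (z' : ℕ) + p : ℕ) : ℤ) < ((2 * (z : ℕ) + p : ℕ) : ℤ) + 1 := by exact_mod_cast h6
  apply Fin.ext
  omega

open Classical in
/-- a sum over the cells of parity `p` -/
noncomputable def gGPA_S (u p : ℕ) (h : Fin (2 ^ (u - 1)) → ℝ → ℝ) (x : ℝ) : ℝ :=
  ∑ z : Fin (2 ^ (u - 1)), if x ∈ cell u ((2 * (z : ℕ) + p : ℕ) : ℤ) then h z x else 0

theorem gGPA_W {ι : Type} [Fintype ι] (u p : ℕ) (Y : ι × Fin (2 ^ (u - 1)) → MeasureTheory.Lp ℝ 2 (volume : Measure ℝ)) (h : ι → Fin (2 ^ (u - 1)) → ℝ → ℝ)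
    (hY : ∀ e, (Y e : ℝ → ℝ) =ᵐ[volume] (cell u ((2 * (e.2 : ℕ) + p : ℕ) : ℤ)).indicator (h e.1 e.2)) :
    (((Fintype.card ι : ℝ)⁻¹ • ∑ e, Y e : MeasureTheory.Lp ℝ 2 (volume : Measure ℝ)) : ℝ → ℝ) =ᵐ[volume] gGPA_S u p (fun z x => (∑ i, h i z x) / Fintype.card ι) := by
  classical
  refine (gGPA_smul (Fintype.card ι : ℝ)⁻¹ Finset.univ Y _ (fun e _ => hY e)).trans (Filter.Eventually.of_forall ?_)
  intro x
  show (Fintype.card ι : ℝ)⁻¹ * ∑ e : ι × Fin (2 ^ (u - 1)), (cell u ((2 * (e.2 : ℕ) + p : ℕ) : ℤ)).indicator (h e.1 e.2) x = gGPA_S u p (fun z x => (∑ i, h i z x) / Fintype.card ι) x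
  unfold gGPA_S
  rw [Fintype.sum_prod_type_right, Finset.mul_sum]
  apply Finset.sum_congr rfl
  intro z _
  by_cases hx : x ∈ cell u ((2 * (z : ℕ) + p : ℕ) : ℤ)
  · simp only [Set.indicator_of_mem hx, if_pos hx]
    rw [div_eq_inv_mul]
  · simp only [Set.indicator_of_notMem hx, if_neg hx, Finset.sum_const_zero, mul_zero]

theorem gGPA_le (u p : ℕ) (A : ℝ → ℝ) (hA : MemLp A 2 volume) : nsq (gGPA_S u p (fun _ => A)) ≤ nsq A := by
  classical
  unfold nsq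
  apply integral_mono_of_nonneg (Filter.Eventually.of_forall (fun x => sq_nonneg _))
  · exact hA.integrable_sq
  · refine Filter.Eventually.of_forall (fun x => ?_)
    show gGPA_S u p (fun _ => A) x ^ 2 ≤ A x ^ 2
    by_cases hx : ∃ z : Fin (2 ^ (u - 1)), x ∈ cell u ((2 * (z : ℕ) + p : ℕ) : ℤ)
    · obtain ⟨z, hz⟩ := hx
      have h1 : gGPA_S u p (fun _ => A) x = A x := by
        unfold gGPA_S
        rw [Finset.sum_eq_single z]
        · rw [if_pos hz]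
        · intro z' _ hz'
          rw [if_neg]
          intro h
          exact hz' (gGPA_cell u p x z' z h hz)
        · intro h; exact absurd (Finset.mem_univ z) h
      rw [h1]
    · have h1 : gGPA_S u p (fun _ => A) x = 0 := by
        unfold gGPA_S
        apply Finset.sum_eq_zero
        intro z _
        rw [if_neg]
        intro h
        exact hx ⟨z, h⟩
      rw [h1]
      nlinarith [sq_nonneg (A x)]

theorem gGPA (hGAP : DH5.GAP_stmt) (hFNC : gFNC_stmt) (hL2T : gL2T_stmt) (hVSP : gVSP_stmt) (hVPR : gVPR_stmt) (hCNT : gCNT_stmt) (hOPX : gOPX_stmt) : gGPA_stmt := by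
  classical
  obtain ⟨K₀, hK₀, hG⟩ := hGAP
  refine ⟨K₀, hK₀, ?_⟩
  intro ι _ _ u s N p C β k lam hp hN hus hu hNL hCC hβ hβ1 hk hlam hmean hsmall hlog hKs
  obtain ⟨n, F, hn, hF1, hF2, hF3⟩ := hVSP s
  obtain ⟨P, hPF, hPind⟩ := hVPR s u n (2 ^ (s + 2)) F (by omega) hn hF1 hF2 hF3
  obtain ⟨X, hX1, hX2, hX3, hX4⟩ := hOPX ι u s n N p C F P hp (by omega) hNL hF1 hF3 hPind
  obtain ⟨hc1, hc2⟩ := hCNT ι u p N C hNL hCC
  haveI : Nonempty (Fin N) := ⟨⟨0, by omega⟩⟩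
  have hcard : ((2 ^ (s + 2) : ℕ) : ℝ) * (Fintype.card (Fin (2 ^ (u - 1))) + Fintype.card (Fin (2 ^ u))) ≤ 2 ^ (2 * s) := by
    rw [Fintype.card_fin, Fintype.card_fin]
    have h1 : 2 ^ (s + 2) * (2 ^ (u - 1) + 2 ^ u) ≤ 2 ^ (2 * s) := by
      calc 2 ^ (s + 2) * (2 ^ (u - 1) + 2 ^ u) ≤ 2 ^ (s + 2) * (2 ^ u + 2 ^ u) := by
            apply Nat.mul_le_mul_left
            apply Nat.add_le_add_right
            exact Nat.pow_le_pow_right (by norm_num) (by omega)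
        _ = 2 ^ (s + 2 + (u + 1)) := by ring
        _ ≤ 2 ^ (2 * s) := Nat.pow_le_pow_right (by norm_num) (by omega)
    exact_mod_cast h1
  have hgap := hG ι (Fin (2 ^ (u - 1))) (Fin (2 ^ u)) (Fin N) (EuclideanSpace ℝ (Fin n)) (MeasureTheory.Lp ℝ 2 (volume : Measure ℝ)) P X (tch u p N C) (2 ^ (s + 2)) s β k
    (Nat.one_le_two_pow) (by omega) hPF hX2 hX3 hX4 hc1 hc2 hβ hβ1 hk hsmall hlog hKs hcard
  refine le_trans ?_ hgap
  have hsub : {ω : ι × Fin (2 ^ (u - 1)) → Fin N | ∃ f, VS s f ∧ (K₀ * β * Real.log (2 / β) + lam) ^ 2 * nsq f < nsq (Tp u p N C ω f)} ⊆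
      {ω : ι × Fin (2 ^ (u - 1)) → Fin N | K₀ * β * Real.log (2 / β) < ‖((Fintype.card ι : ℝ))⁻¹ • ∑ e : ι × Fin (2 ^ (u - 1)), (X e.1 e.2 (ω e) - DH5.avE (X e.1 e.2))‖} := by
    intro ω hω
    obtain ⟨f, hf, hlt⟩ := hω
    by_contra hno
    simp only [Set.mem_setOf_eq, not_lt] at hno
    apply absurd hlt
    rw [not_lt]
    obtain ⟨v, hv⟩ := hF2 f hf
    subst hv
    set κ : ℝ := K₀ * β * Real.log (2 / β) with hκ
    have hL : 0 < Real.log (2 / β) := Real.log_pos (by rw [lt_div_iff₀ hβ]; linarith)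
    have hκ0 : 0 ≤ κ := by positivity
    -- the norm of v
    have hnv : nsq (F v) = ‖v‖ ^ 2 := by
      rw [← real_inner_self_eq_norm_sq, ← hF3]
      unfold nsq
      apply integral_congr_ae
      exact Filter.Eventually.of_forall (fun x => by simp [pow_two])
    -- the operator
    have h1 : (((Fintype.card ι : ℝ))⁻¹ • ∑ e : ι × Fin (2 ^ (u - 1)), X e.1 e.2 (ω e) v) = (((Fintype.card ι : ℝ))⁻¹ • ∑ e : ι × Fin (2 ^ (u - 1)), (X e.1 e.2 (ω e) - DH5.avE (X e.1 e.2))) v +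
        ((Fintype.card ι : ℝ))⁻¹ • ∑ e : ι × Fin (2 ^ (u - 1)), DH5.avE (X e.1 e.2) v := by
      rw [ContinuousLinearMap.smul_apply, ContinuousLinearMap.sum_apply, ← smul_add, ← Finset.sum_add_distrib]
      congr 1
      apply Finset.sum_congr rfl
      intro e _
      simp
    have h2 : ‖(((Fintype.card ι : ℝ))⁻¹ • ∑ e : ι × Fin (2 ^ (u - 1)), X e.1 e.2 (ω e) v)‖ ^ 2 = nsq (Tp u p N C ω (F v)) := by
      apply gGPA_norm
      exact gGPA_W u p (fun e => X e.1 e.2 (ω e) v) (fun i z x => F v (C i (ω (i, z)) x)) (fun e => hX1 e.1 e.2 (ω e) v)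
    have hav : ∀ e : ι × Fin (2 ^ (u - 1)), ((DH5.avE (X e.1 e.2) v : MeasureTheory.Lp ℝ 2 (volume : Measure ℝ)) : ℝ → ℝ) =ᵐ[volume]
        (cell u ((2 * (e.2 : ℕ) + p : ℕ) : ℤ)).indicator (fun x => (∑ o ∈ Finset.range N, F v (C e.1 o x)) / N) := by
      intro e
      have h3 : DH5.avE (X e.1 e.2) v = (Fintype.card (Fin N) : ℝ)⁻¹ • ∑ o, X e.1 e.2 o v := by
        unfold DH5.avE
        rw [ContinuousLinearMap.smul_apply, ContinuousLinearMap.sum_apply]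
      rw [h3]
      refine (gGPA_smul _ Finset.univ (fun o => X e.1 e.2 o v) _ (fun o _ => hX1 e.1 e.2 o v)).trans (Filter.Eventually.of_forall ?_)
      intro x
      show (Fintype.card (Fin N) : ℝ)⁻¹ * ∑ o : Fin N, (cell u ((2 * (e.2 : ℕ) + p : ℕ) : ℤ)).indicator (fun x => F v (C e.1 o x)) x = (cell u ((2 * (e.2 : ℕ) + p : ℕ) : ℤ)).indicator (fun x => (∑ o ∈ Finset.range N, F v (C e.1 o x)) / N) x
      by_cases hx : x ∈ cell u ((2 * (e.2 : ℕ) + p : ℕ) : ℤ)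
      · simp only [Set.indicator_of_mem hx]
        rw [Fintype.card_fin, div_eq_inv_mul, Finset.sum_range]
      · simp only [Set.indicator_of_notMem hx, Finset.sum_const_zero, mul_zero]
    have hmem : ∀ i : ι, MemLp (fun x => (∑ o ∈ Finset.range N, F v (C i o x)) / N) 2 volume := by
      intro i
      have h3 : MemLp (fun x => ∑ o ∈ Finset.range N, F v (C i o x)) 2 volume := by
        apply memLp_finset_sum
        intro o _
        exact (hFNC (s + 1) (F v) (C i o) hf.1 hf.2.1 (hNL i o)).2.2.2.2.2.1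
      have h4 := h3.const_mul ((N : ℝ)⁻¹)
      refine h4.congr_norm ?_ ?_
      · exact (h3.aestronglyMeasurable.mul_const _)
      · exact Filter.Eventually.of_forall (fun x => by rw [div_eq_inv_mul])
    have hmemA : MemLp (fun x => (∑ i : ι, (∑ o ∈ Finset.range N, F v (C i o x)) / N) / Fintype.card ι) 2 volume := by
      have h3 : MemLp (fun x => ∑ i : ι, (∑ o ∈ Finset.range N, F v (C i o x)) / N) 2 volume := by
        apply memLp_finset_sum
        intro i _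
        exact hmem i
      have h4 := h3.const_mul ((Fintype.card ι : ℝ)⁻¹)
      refine h4.congr_norm ?_ ?_
      · exact (h3.aestronglyMeasurable.mul_const _)
      · exact Filter.Eventually.of_forall (fun x => by rw [div_eq_inv_mul])
    have h3 : ‖((Fintype.card ι : ℝ))⁻¹ • ∑ e : ι × Fin (2 ^ (u - 1)), DH5.avE (X e.1 e.2) v‖ ^ 2 ≤ lam ^ 2 * nsq (F v) := by
      rw [gGPA_norm _ _ (gGPA_W u p (fun e => DH5.avE (X e.1 e.2) v) (fun i _ x => (∑ o ∈ Finset.range N, F v (C i o x)) / N) hav)]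
      refine (gGPA_le u p (fun x => (∑ i : ι, (∑ o ∈ Finset.range N, F v (C i o x)) / N) / Fintype.card ι) hmemA).trans ?_
      have h4 := hL2T.2 ι Finset.univ (fun i x => (∑ o ∈ Finset.range N, F v (C i o x)) / N) (lam ^ 2 * nsq (F v)) Finset.univ_nonempty (fun i _ => ⟨hmem i, hmean i (F v) hf⟩)
      rw [Finset.card_univ] at h4
      exact h4
    have h4 : ‖((Fintype.card ι : ℝ))⁻¹ • ∑ e : ι × Fin (2 ^ (u - 1)), DH5.avE (X e.1 e.2) v‖ ≤ lam * ‖v‖ := by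
      apply le_of_sq_le_sq _ (by positivity)
      rw [mul_pow, ← hnv]
      exact h3
    have h5 : ‖(((Fintype.card ι : ℝ))⁻¹ • ∑ e : ι × Fin (2 ^ (u - 1)), (X e.1 e.2 (ω e) - DH5.avE (X e.1 e.2))) v‖ ≤ κ * ‖v‖ :=
      (ContinuousLinearMap.le_opNorm _ _).trans (mul_le_mul_of_nonneg_right hno (norm_nonneg _))
    have h6 : ‖(((Fintype.card ι : ℝ))⁻¹ • ∑ e : ι × Fin (2 ^ (u - 1)), X e.1 e.2 (ω e) v)‖ ≤ (κ + lam) * ‖v‖ := by
      rw [h1]
      refine (norm_add_le _ _).trans ?_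
      rw [add_mul]
      exact add_le_add h5 h4
    rw [← h2, hnv, ← mul_pow]
    exact pow_le_pow_left₀ (norm_nonneg _) h6 2
  have h9 := Set.ncard_le_ncard hsub (Set.toFinite _)
  exact_mod_cast h9

end Pool.Agent.helper90.DH
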